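import Mathlib
import Pool.Agent.Lib.MP_7682a8_an.OM.Base
import Pool.Agent.Lib.MP_7682a8_an.H10.Origin

/-!
Assembly of the core statement (Paper, section 1).
-/

set_option autoImplicit false

open Metric MeasureTheory Set

namespace Pool.Agent.Lib.MP_7682a8_an.OM.H86

open Pool.Agent.Lib.MP_7682a8_an.OM Pool.Agent.Lib.MP_7682a8_an.H10

noncomputable section

/-- first Fourier coefficient -/
lemma norm_sin {φ : ℂ → ℂ} {R : ℝ} (hR : 1 < R) (hφ : DifferentiableOn ℂ φ (ball 0 R))
    (hφ0 : φ 0 = 0) (hφ1 : deriv φ 0 = 1) :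
    ∫ t in (0:ℝ)..(2 * Real.pi), -(φ (Complex.exp (t * Complex.I))).im * Real.sin t = -Real.pi := by
  have hpi := Real.pi_pos
  have h0mem : (0:ℂ) ∈ ball (0:ℂ) R := mem_ball_self (by linarith)
  have hmem : ∀ t : ℝ, Complex.exp (t * Complex.I) ∈ ball (0:ℂ) R := by
    intro t
    rw [mem_ball_zero_iff, Complex.norm_exp_ofReal_mul_I]; exact hR
  have hψ : DifferentiableOn ℂ (dslope φ 0) (ball 0 R) :=
    (Complex.differentiableOn_dslope (isOpen_ball.mem_nhds h0mem)).mpr hφ
  have hzψ : ∀ z : ℂ, z * dslope φ 0 z = φ z := by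
    intro z
    have := sub_smul_dslope φ 0 z
    simpa [hφ0] using this
  have hzφ : DifferentiableOn ℂ (fun z => z * φ z) (ball 0 R) := differentiableOn_id.mul hφ
  have c1 := (diffContOnCl_of_big hR hψ)
  rw [← abs_one (α := ℝ)] at c1
  have d1 := c1.circleAverage
  rw [Real.circleAverage_def, dslope_same, hφ1] at d1
  have c2 := (diffContOnCl_of_big hR hzφ)
  rw [← abs_one (α := ℝ)] at c2
  have d2 := c2.circleAverage
  rw [Real.circleAverage_def] at d2
  simp only [hφ0, mul_zero] at d1 d2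
  have e1 : ∫ t in (0:ℝ)..(2 * Real.pi), dslope φ 0 (Complex.exp (t * Complex.I)) =
      (2 * Real.pi : ℝ) := by
    have h1 : ∫ t in (0:ℝ)..(2 * Real.pi), dslope φ 0 (Complex.exp (t * Complex.I)) =
        ∫ t in (0:ℝ)..(2 * Real.pi), dslope φ 0 (circleMap 0 1 t) := by
      apply intervalIntegral.integral_congr
      intro t _
      simp [circleMap]
    rw [h1]
    have h2 : ((2 * Real.pi : ℝ)) • ((2 * Real.pi)⁻¹ • ∫ t in (0:ℝ)..(2 * Real.pi),
        dslope φ 0 (circleMap 0 1 t)) = (2 * Real.pi : ℝ) • (1:ℂ) := by rw [d1]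
    rw [smul_smul, mul_inv_cancel₀ (by positivity), one_smul] at h2
    rw [h2, Complex.real_smul, mul_one]
  have e2 : ∫ t in (0:ℝ)..(2 * Real.pi), Complex.exp (t * Complex.I) *
      φ (Complex.exp (t * Complex.I)) = 0 := by
    have h1 : ∫ t in (0:ℝ)..(2 * Real.pi), Complex.exp (t * Complex.I) *
        φ (Complex.exp (t * Complex.I)) =
        ∫ t in (0:ℝ)..(2 * Real.pi), circleMap 0 1 t * φ (circleMap 0 1 t) := by
      apply intervalIntegral.integral_congr
      intro t _
      simp [circleMap]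
    rw [h1]
    have h2 : ((2 * Real.pi : ℝ)) • ((2 * Real.pi)⁻¹ • ∫ t in (0:ℝ)..(2 * Real.pi),
        circleMap 0 1 t * φ (circleMap 0 1 t)) = (2 * Real.pi : ℝ) • (0:ℂ) := by rw [d2]
    rw [smul_smul, mul_inv_cancel₀ (by positivity), one_smul, smul_zero] at h2
    exact h2
  have hce : Continuous (fun t : ℝ => Complex.exp (t * Complex.I)) := by fun_prop
  have hcφ : Continuous (fun t : ℝ => φ (Complex.exp (t * Complex.I))) := by
    rw [← continuousOn_univ]
    exact hφ.continuousOn.comp hce.continuousOn (fun t _ => hmem t)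
  have hcψ : Continuous (fun t : ℝ => dslope φ 0 (Complex.exp (t * Complex.I))) := by
    rw [← continuousOn_univ]
    exact hψ.continuousOn.comp hce.continuousOn (fun t _ => hmem t)
  have i1 : IntervalIntegrable (fun t : ℝ => Complex.exp (t * Complex.I) *
      φ (Complex.exp (t * Complex.I))) volume 0 (2 * Real.pi) :=
    (hce.mul hcφ).intervalIntegrable _ _
  have i2 : IntervalIntegrable (fun t : ℝ => dslope φ 0 (Complex.exp (t * Complex.I))) volume 0
      (2 * Real.pi) := hcψ.intervalIntegrable _ _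
  have e3 := intervalIntegral.integral_sub i1 i2
  rw [e1, e2] at e3
  -- pointwise
  have e4 : ∀ t : ℝ, Complex.exp (t * Complex.I) * φ (Complex.exp (t * Complex.I)) -
      dslope φ 0 (Complex.exp (t * Complex.I)) =
      2 * Complex.I * ((Real.sin t : ℝ) : ℂ) * φ (Complex.exp (t * Complex.I)) := by
    intro t
    have h1 := hzψ (Complex.exp (t * Complex.I))
    have h2 : Complex.exp (-(t * Complex.I)) * Complex.exp (t * Complex.I) = 1 := by
      rw [← Complex.exp_add]; simp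
    have h3 : dslope φ 0 (Complex.exp (t * Complex.I)) =
        Complex.exp (-(t * Complex.I)) * φ (Complex.exp (t * Complex.I)) := by
      rw [← h1, ← mul_assoc, h2, one_mul]
    rw [h3, Complex.ofReal_sin, Complex.sin]
    have hI : Complex.I * Complex.I = -1 := Complex.I_mul_I
    have h4 : -(t:ℂ) * Complex.I = -((t:ℂ) * Complex.I) := by ring
    rw [h4]
    linear_combination (-(Complex.exp (-(t * Complex.I)) - Complex.exp (t * Complex.I)) *
      φ (Complex.exp (t * Complex.I))) * hI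
  have e5 : ∫ t in (0:ℝ)..(2 * Real.pi), 2 * Complex.I * (((Real.sin t : ℝ) : ℂ) *
      φ (Complex.exp (t * Complex.I))) = -((2 * Real.pi : ℝ) : ℂ) := by
    rw [← zero_sub, ← e3]
    apply intervalIntegral.integral_congr
    intro t _
    simp only
    rw [e4]; ring
  rw [intervalIntegral.integral_const_mul] at e5
  have i3 : IntervalIntegrable (fun t : ℝ => ((Real.sin t : ℝ) : ℂ) *
      φ (Complex.exp (t * Complex.I))) volume 0 (2 * Real.pi) := by
    apply Continuous.intervalIntegrable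
    exact (Complex.continuous_ofReal.comp Real.continuous_sin).mul hcφ
  have e6 : ∫ t in (0:ℝ)..(2 * Real.pi), ((Real.sin t : ℝ) : ℂ) *
      φ (Complex.exp (t * Complex.I)) = (Real.pi : ℂ) * Complex.I := by
    have hI : Complex.I * Complex.I = -1 := Complex.I_mul_I
    have h1 : (2 * Complex.I) * (∫ t in (0:ℝ)..(2 * Real.pi), ((Real.sin t : ℝ) : ℂ) *
      φ (Complex.exp (t * Complex.I))) = (2 * Complex.I) * ((Real.pi : ℂ) * Complex.I) := by
      rw [e5]
      push_cast
      linear_combination (-2 * (Real.pi:ℂ)) * hI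
    exact mul_left_cancel₀ (by simp) h1
  have hre := Complex.imCLM.intervalIntegral_comp_comm i3
  rw [e6] at hre
  have e7 : ∫ t in (0:ℝ)..(2 * Real.pi), -(φ (Complex.exp (t * Complex.I))).im * Real.sin t =
      -∫ t in (0:ℝ)..(2 * Real.pi), Complex.imCLM (((Real.sin t : ℝ) : ℂ) *
      φ (Complex.exp (t * Complex.I))) := by
    rw [← intervalIntegral.integral_neg]
    apply intervalIntegral.integral_congr
    intro t _
    simp only [Complex.imCLM_apply, Complex.im_ofReal_mul]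
    ring
  rw [e7, hre]
  simp

/-- **CORE.** -/
theorem core (hRUN : RUNStatement) (hREP : REPStatement) (hMIX : MIXStatement) :
    COREStatement := by
  intro R h g hR hh hg hh0 hg0 hh1 hg1 hlt κ hκ0 hκ1
  have hpi := Real.pi_pos
  have h2pi : (0:ℝ) < 2 * Real.pi := by positivity
  have h0mem : (0:ℂ) ∈ ball (0:ℂ) R := mem_ball_self (by linarith)
  obtain ⟨φ, hφe⟩ : ∃ φ : ℂ → ℂ, ∀ z, φ z = h z - g z := ⟨_, fun _ => rfl⟩
  obtain ⟨P, hPe⟩ : ∃ P : ℂ → ℂ, ∀ z, P z = h z + g z := ⟨_, fun _ => rfl⟩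
  obtain ⟨Q, hQe⟩ : ∃ Q : ℂ → ℂ, ∀ z, Q z = (deriv h z + deriv g z) / (deriv h z - deriv g z) :=
    ⟨_, fun _ => rfl⟩
  have hφf : φ = fun z => h z - g z := funext hφe
  have hPf : P = fun z => h z + g z := funext hPe
  have hQf : Q = fun z => (deriv h z + deriv g z) / (deriv h z - deriv g z) := funext hQe
  have hh' : ∀ z ∈ ball (0:ℂ) R, HasDerivAt h (deriv h z) z := fun z hz =>
    (hh.differentiableAt (isOpen_ball.mem_nhds hz)).hasDerivAt
  have hg' : ∀ z ∈ ball (0:ℂ) R, HasDerivAt g (deriv g z) z := fun z hz =>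
    (hg.differentiableAt (isOpen_ball.mem_nhds hz)).hasDerivAt
  have hφ' : ∀ z ∈ ball (0:ℂ) R, HasDerivAt φ (deriv h z - deriv g z) z := fun z hz => by
    rw [hφf]; exact (hh' z hz).sub (hg' z hz)
  have hP' : ∀ z ∈ ball (0:ℂ) R, HasDerivAt P (deriv h z + deriv g z) z := fun z hz => by
    rw [hPf]; exact (hh' z hz).add (hg' z hz)
  have hφd : DifferentiableOn ℂ φ (ball 0 R) := fun z hz =>
    (hφ' z hz).differentiableAt.differentiableWithinAt
  have hne : ∀ z ∈ ball (0:ℂ) R, deriv h z - deriv g z ≠ 0 := by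
    intro z hz h1
    rw [sub_eq_zero] at h1
    have h2 := hlt z hz
    rw [h1] at h2
    exact lt_irrefl _ h2
  have hQd : DifferentiableOn ℂ Q (ball 0 R) := by
    rw [hQf]
    exact ((hh.deriv isOpen_ball).add (hg.deriv isOpen_ball)).div
      ((hh.deriv isOpen_ball).sub (hg.deriv isOpen_ball)) hne
  have hQpos : ∀ z ∈ ball (0:ℂ) R, 0 ≤ (Q z).re := by
    intro z hz
    rw [hQe, re_div_formula]
    have h1 := hlt z hz
    have h2 : ‖deriv g z‖ ^ 2 ≤ ‖deriv h z‖ ^ 2 := by gcongr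
    have h3 : 0 ≤ ‖deriv h z‖ ^ 2 - ‖deriv g z‖ ^ 2 := by linarith
    positivity
  have hφ0 : φ 0 = 0 := by rw [hφe, hh0, hg0]; simp
  have hP0 : P 0 = 0 := by rw [hPe, hh0, hg0]; simp
  have hφ1 : deriv φ 0 = 1 := by rw [(hφ' 0 h0mem).deriv, hh1, hg1]; simp
  have hQ0 : Q 0 = 1 := by rw [hQe, hh1, hg1]; simp
  -- primitive
  have hψ : DifferentiableOn ℂ (dslope φ 0) (ball 0 R) :=
    (Complex.differentiableOn_dslope (isOpen_ball.mem_nhds h0mem)).mpr hφd
  obtain ⟨A, hA⟩ := hψ.isExactOn_ball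
  have hzψ : ∀ z : ℂ, z * dslope φ 0 z = φ z := by
    intro z
    have := sub_smul_dslope φ 0 z
    simpa [hφ0] using this
  have hmem : ∀ t : ℝ, Complex.exp (t * Complex.I) ∈ ball (0:ℂ) R := by
    intro t
    rw [mem_ball_zero_iff, Complex.norm_exp_ofReal_mul_I]; exact hR
  have hce : Continuous (fun t : ℝ => Complex.exp (t * Complex.I)) := by fun_prop
  have hcφ : Continuous (fun t : ℝ => φ (Complex.exp (t * Complex.I))) := by
    rw [← continuousOn_univ]
    exact hφd.continuousOn.comp hce.continuousOn (fun t _ => hmem t)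
  obtain ⟨U, hU⟩ : ∃ U : ℝ → ℝ, ∀ t : ℝ, U t = (A (Complex.exp (t * Complex.I))).re :=
    ⟨_, fun _ => rfl⟩
  obtain ⟨V, hV⟩ : ∃ V : ℝ → ℝ, ∀ t : ℝ, V t = -(φ (Complex.exp (t * Complex.I))).im :=
    ⟨_, fun _ => rfl⟩
  have hUf : U = fun t : ℝ => (A (Complex.exp (t * Complex.I))).re := funext hU
  have hVf : V = fun t : ℝ => -(φ (Complex.exp (t * Complex.I))).im := funext hV
  have hUd : ∀ t, HasDerivAt U (V t) t := by
    intro t
    have h1 := hasDerivAt_cexp_mul_I t
    have h2 : HasDerivAt A (dslope φ 0 (Complex.exp (t * Complex.I))) (Complex.exp (t * Complex.I)) :=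
      hA _ (hmem t)
    have h3 := hasDerivAt_comp_real (c := fun t : ℝ => Complex.exp (t * Complex.I)) h2 h1
    have h4 := Complex.reCLM.hasFDerivAt.comp_hasDerivAt t h3
    have h5 : dslope φ 0 (Complex.exp (t * Complex.I)) * (Complex.I * Complex.exp (t * Complex.I)) =
        φ (Complex.exp (t * Complex.I)) * Complex.I := by
      rw [← hzψ (Complex.exp (t * Complex.I))]; ring
    rw [h5] at h4
    rw [hUf, hV]
    refine h4.congr_deriv ?_
    simp
  have hVc : Continuous V := by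
    rw [hVf]; exact (Complex.continuous_im.comp hcφ).neg
  have hexp : ∀ t : ℝ, Complex.exp (((t + 2 * Real.pi : ℝ) : ℂ) * Complex.I) =
      Complex.exp (t * Complex.I) := by
    intro t
    have : ((t + 2 * Real.pi : ℝ) : ℂ) * Complex.I = t * Complex.I + 2 * Real.pi * Complex.I := by
      push_cast; ring
    rw [this, Complex.exp_add, Complex.exp_two_pi_mul_I, mul_one]
  have hUp : ∀ t, U (t + 2 * Real.pi) = U t := by
    intro t; rw [hU, hU, hexp]
  have hnorm : (∫ t in (0:ℝ)..(2 * Real.pi), V t * Real.sin t) = -Real.pi := by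
    rw [hVf]
    exact norm_sin hR hφd hφ0 hφ1
  obtain ⟨t0, ht0, hest⟩ := hRUN U V hUd hVc hUp hnorm κ hκ0 hκ1
  -- the point
  obtain ⟨z0, hz0⟩ : ∃ z0 : ℂ, z0 = Complex.exp (t0 * Complex.I) := ⟨_, rfl⟩
  have hz0n : ‖z0‖ = 1 := by rw [hz0]; exact Complex.norm_exp_ofReal_mul_I t0
  have hmap : ∀ z ∈ ball (0:ℂ) R, z0 * z ∈ ball (0:ℂ) R := by
    intro z hz
    rw [mem_ball_zero_iff] at hz ⊢
    rw [norm_mul, hz0n, one_mul]; exact hz
  have hlin : ∀ z : ℂ, HasDerivAt (fun z : ℂ => z0 * z) z0 z := fun z => by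
    simpa using (hasDerivAt_id z).const_mul z0
  obtain ⟨F, hF⟩ : ∃ F : ℂ → ℂ, ∀ z, F z = φ (z0 * z) := ⟨_, fun _ => rfl⟩
  have hFf : F = fun z => φ (z0 * z) := funext hF
  obtain ⟨q, hq⟩ : ∃ q : ℂ → ℂ, ∀ z, q z = Q (z0 * z) := ⟨_, fun _ => rfl⟩
  have hqf : q = fun z => Q (z0 * z) := funext hq
  have hFd' : ∀ z ∈ ball (0:ℂ) R, HasDerivAt F ((deriv h (z0 * z) - deriv g (z0 * z)) * z0) z := by
    intro z hz
    rw [hFf]
    exact HasDerivAt.comp (h := fun z : ℂ => z0 * z) z (hφ' (z0 * z) (hmap z hz)) (hlin z)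
  have hFd : DifferentiableOn ℂ F (ball 0 R) := fun z hz =>
    (hFd' z hz).differentiableAt.differentiableWithinAt
  have hqd : DifferentiableOn ℂ q (ball 0 R) := by
    rw [hqf]
    exact hQd.comp (fun z _ => (hlin z).differentiableAt.differentiableWithinAt) hmap
  have hqpos : ∀ z ∈ sphere (0:ℂ) 1, 0 ≤ (q z).re := by
    intro z hz
    rw [hq]
    exact hQpos _ (hmap z (sphere_subset_ball hR hz))
  have hq0 : q 0 = 1 := by rw [hq, mul_zero, hQ0]
  have hF1 : (F 1).im = -κ := by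
    rw [hF, mul_one, hz0, ← ht0, hV]; ring
  have hB : ∀ σ ∈ Ioo (0:ℝ) (2 * Real.pi),
      (∫ s in (0:ℝ)..1, (Complex.exp (σ * Complex.I) + s) / (Complex.exp (σ * Complex.I) - s) *
        deriv F s).re ≤ -(1 / 6 - 7 / 3 * κ ^ 2 / (1 - 2 * κ)) := by
    intro σ hσ
    rw [hREP R F hR hFd κ hF1 σ hσ]
    have h1 := hest (t0 + σ) ⟨by linarith [hσ.1], by linarith [hσ.2]⟩
    have h2 : ∫ t in (0:ℝ)..(2 * Real.pi), Nf ((t - σ) / 2) *
        (-(F (Complex.exp (t * Complex.I))).im - κ) =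
        ∫ t in t0..(t0 + 2 * Real.pi), Nf ((t - (t0 + σ)) / 2) * (V t - κ) := by
      have h3 := intervalIntegral.integral_comp_add_left
        (fun t => Nf ((t - (t0 + σ)) / 2) * (V t - κ)) t0 (a := 0) (b := 2 * Real.pi)
      rw [add_zero] at h3
      rw [← h3]
      apply intervalIntegral.integral_congr
      intro t _
      simp only
      have h4 : z0 * Complex.exp (t * Complex.I) = Complex.exp (((t0 + t : ℝ) : ℂ) * Complex.I) := by
        rw [hz0, ← Complex.exp_add]
        congr 1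
        push_cast; ring
      rw [hF, h4, hV]
      congr 3
      ring
    rw [h2]
    calc Real.pi⁻¹ * ∫ t in t0..(t0 + 2 * Real.pi), Nf ((t - (t0 + σ)) / 2) * (V t - κ)
        ≤ Real.pi⁻¹ * (-Real.pi * (1 / 6 - 7 / 3 * κ ^ 2 / (1 - 2 * κ))) :=
          mul_le_mul_of_nonneg_left h1 (by positivity)
      _ = _ := by field_simp
  have hmix := hMIX R F q hR hFd hqd hqpos (by rw [hq0]; simp)
    (-(1 / 6 - 7 / 3 * κ ^ 2 / (1 - 2 * κ))) hB
  rw [hq0, Complex.one_re, mul_one] at hmix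
  -- identify the integral
  have hball : ∀ s ∈ Icc (0:ℝ) 1, (s:ℂ) ∈ ball (0:ℂ) R := by
    intro s hs
    rw [mem_ball_zero_iff, Complex.norm_real, Real.norm_of_nonneg hs.1]
    linarith [hs.2]
  have hint : ∫ s in (0:ℝ)..1, q s * deriv F s = P z0 := by
    have hcs : ContinuousOn (fun s : ℝ => (s:ℂ)) (Icc 0 1) := by fun_prop
    have hc1 : ContinuousOn (fun s : ℝ => deriv F s) (Icc 0 1) :=
      (hFd.deriv isOpen_ball).continuousOn.comp hcs hball
    have hcq : ContinuousOn (fun s : ℝ => q s) (Icc 0 1) := hqd.continuousOn.comp hcs hball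
    have key := intervalIntegral.integral_eq_sub_of_hasDerivAt (a := 0) (b := 1)
      (f := fun t : ℝ => P (z0 * (t:ℂ)))
      (f' := fun s : ℝ => q s * deriv F s) (by
        intro s hs
        rw [uIcc_of_le zero_le_one] at hs
        have hs' := hball s hs
        have h4 := (HasDerivAt.comp (h := fun z : ℂ => z0 * z) (s:ℂ) (hP' _ (hmap _ hs'))
          (hlin (s:ℂ))).comp_ofReal
        refine h4.congr_deriv ?_
        rw [(hFd' _ hs').deriv, hq, hQe]
        have := hne _ (hmap _ hs')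
        field_simp) (by
        apply ContinuousOn.intervalIntegrable
        rw [uIcc_of_le zero_le_one]
        exact hcq.mul hc1)
    rw [key]
    simp [hP0]
  rw [hint] at hmix
  refine ⟨z0, hz0n, ?_, ?_⟩
  · have h1 : (h z0 + starRingEnd ℂ (g z0)).im = (φ z0).im := by
      rw [hφe]; simp [sub_eq_add_neg]
    rw [h1]
    rw [hF, mul_one] at hF1
    exact hF1
  · have h1 : (h z0 + starRingEnd ℂ (g z0)).re = (P z0).re := by
      rw [hPe]; simp
    rw [h1]
    exact hmix

end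

end Pool.Agent.Lib.MP_7682a8_an.OM.H86
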