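import Mathlib
import Pool.Agent.Lib.MP_7682a8_an.OM.Base

/-!
The kernels (Paper, section 2).
-/

set_option autoImplicit false

open Metric MeasureTheory Set

namespace Pool.Agent.Lib.MP_7682a8_an.OM.H86

open Pool.Agent.Lib.MP_7682a8_an.OM

noncomputable section

lemma nonneg_of_hasDeriv {f f' : ℝ → ℝ} (hf : ∀ x, HasDerivAt f (f' x) x) (h0 : f 0 = 0) {b : ℝ}
    (hpos : ∀ x ∈ Ioo 0 b, 0 ≤ f' x) : ∀ x ∈ Icc 0 b, 0 ≤ f x := by
  intro x hx
  have hm : MonotoneOn f (Icc 0 b) := by
    apply monotoneOn_of_deriv_nonneg (convex_Icc 0 b)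
    · exact fun y _ => (hf y).continuousAt.continuousWithinAt
    · exact fun y _ => (hf y).differentiableAt.differentiableWithinAt
    · intro y hy
      rw [interior_Icc] at hy
      rw [(hf y).deriv]
      exact hpos y hy
  have := hm ⟨le_rfl, hx.1.trans hx.2⟩ hx hx.1
  rwa [h0] at this

/-- p(x) = x - sin x cos x -/
def pf (x : ℝ) : ℝ := x - Real.sin x * Real.cos x

/-- w(x) = sin x - x cos x - sin^3 x / 3 -/
def wf (x : ℝ) : ℝ := Real.sin x - x * Real.cos x - Real.sin x ^ 3 / 3

lemma pf_deriv (x : ℝ) : HasDerivAt pf (2 * Real.sin x ^ 2) x := by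
  have h1 : HasDerivAt pf (1 - (Real.cos x * Real.cos x + Real.sin x * -Real.sin x)) x :=
    (hasDerivAt_id x).sub ((Real.hasDerivAt_sin x).mul (Real.hasDerivAt_cos x))
  refine h1.congr_deriv ?_
  nlinarith [Real.sin_sq_add_cos_sq x]

lemma wf_deriv (x : ℝ) : HasDerivAt wf (Real.sin x * pf x) x := by
  have h1 : HasDerivAt wf (Real.cos x - (1 * Real.cos x + x * -Real.sin x) -
      (3 * Real.sin x ^ 2 * Real.cos x) / 3) x := by
    have a := (Real.hasDerivAt_sin x).sub ((hasDerivAt_id x).mul (Real.hasDerivAt_cos x))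
    have b := ((Real.hasDerivAt_sin x).pow 3).div_const 3
    have c := a.sub b
    refine c.congr_deriv ?_
    norm_num
  refine h1.congr_deriv ?_
  unfold pf
  ring

lemma pf_zero : pf 0 = 0 := by simp [pf]

lemma wf_zero : wf 0 = 0 := by simp [wf]

lemma pf_nonneg {x : ℝ} (hx : 0 ≤ x) : 0 ≤ pf x :=
  nonneg_of_hasDeriv pf_deriv pf_zero (b := x) (fun y _ => by positivity) x ⟨hx, le_rfl⟩

lemma pf_le {x : ℝ} (hx : 0 ≤ x) : pf x ≤ 2 / 3 * x ^ 3 := by
  have h := nonneg_of_hasDeriv (f := fun x => 2 / 3 * x ^ 3 - pf x)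
    (f' := fun x => 2 * x ^ 2 - 2 * Real.sin x ^ 2) (fun y => by
      have h1 := ((hasDerivAt_pow 3 y).const_mul (2 / 3)).sub (pf_deriv y)
      refine h1.congr_deriv ?_
      norm_num
      ring) (by simp [pf_zero]) (b := x) (fun y _ => by
      have h1 : Real.sin y ^ 2 ≤ y ^ 2 := sq_le_sq.mpr Real.abs_sin_le_abs
      linarith) x ⟨hx, le_rfl⟩
  linarith

lemma wf_nonneg {x : ℝ} (hx : 0 ≤ x) (hx2 : x ≤ Real.pi) : 0 ≤ wf x :=
  nonneg_of_hasDeriv wf_deriv wf_zero (b := Real.pi) (fun _ hy =>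
    mul_nonneg (Real.sin_pos_of_pos_of_lt_pi hy.1 hy.2).le (pf_nonneg hy.1.le)) x ⟨hx, hx2⟩

lemma Df_nonneg {x : ℝ} (hx : 0 ≤ x) (hx2 : x ≤ Real.pi / 2) :
    pf x ^ 2 ≤ 4 * Real.sin x * wf x := by
  have h := nonneg_of_hasDeriv (f := fun x => 4 * Real.sin x * wf x - pf x ^ 2)
    (f' := fun x => 4 * Real.cos x * wf x) (fun y => by
      have h1 := (((Real.hasDerivAt_sin y).const_mul 4).mul (wf_deriv y)).sub ((pf_deriv y).pow 2)
      refine h1.congr_deriv ?_
      norm_num
      ring) (by simp [pf_zero]) (b := Real.pi / 2) (fun y hy => by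
      have h1 : 0 ≤ Real.cos y := Real.cos_nonneg_of_neg_pi_div_two_le_of_le
        (by linarith [hy.1, Real.pi_pos]) hy.2.le
      have h2 := wf_nonneg hy.1.le (by linarith [hy.2, Real.pi_pos])
      positivity) x ⟨hx, hx2⟩
  linarith

lemma Nf_eq (x : ℝ) : Nf x = pf x / (2 * Real.sin x ^ 2) := rfl

lemma Xf_sub {x : ℝ} (hx : 0 < Real.sin x) : Xf x - 1 / 3 = wf x / Real.sin x ^ 3 := by
  unfold Xf wf
  field_simp

lemma Xf_ge {x : ℝ} (hx : 0 < x) (hx2 : x < Real.pi) : 1 / 3 ≤ Xf x := by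
  have hs := Real.sin_pos_of_pos_of_lt_pi hx hx2
  have h1 := Xf_sub hs
  have h2 : 0 ≤ wf x / Real.sin x ^ 3 := div_nonneg (wf_nonneg hx.le hx2.le) (by positivity)
  linarith

lemma Nf_neg (x : ℝ) : Nf (-x) = -Nf x := by
  unfold Nf
  rw [Real.sin_neg, Real.cos_neg]
  ring

lemma Xf_neg (x : ℝ) : Xf (-x) = Xf x := by
  unfold Xf
  rw [Real.sin_neg, Real.cos_neg]
  have h1 : -Real.sin x - -x * Real.cos x = -(Real.sin x - x * Real.cos x) := by ring
  have h2 : (-Real.sin x) ^ 3 = -(Real.sin x ^ 3) := by ring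
  rw [h1, h2, neg_div_neg_eq]

lemma kernel_pos {x l : ℝ} (hx : 0 < x) (hx2 : x < Real.pi) (hl1 : l ≤ 1 / 2) :
    1 / 3 - l ^ 2 ≤ Xf x - 2 * l * Nf x := by
  have hs := Real.sin_pos_of_pos_of_lt_pi hx hx2
  rcases le_total x (Real.pi / 2) with h | h
  · have h1 := Df_nonneg hx.le h
    have h2 : Nf x ^ 2 ≤ Xf x - 1 / 3 := by
      rw [Xf_sub hs, Nf_eq, div_pow, div_le_div_iff₀ (by positivity) (by positivity)]
      have h3 : (2 * Real.sin x ^ 2) ^ 2 = 4 * Real.sin x * Real.sin x ^ 3 := by ring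
      rw [h3]
      have h4 : 0 ≤ Real.sin x ^ 3 := by positivity
      calc pf x ^ 2 * Real.sin x ^ 3 ≤ (4 * Real.sin x * wf x) * Real.sin x ^ 3 :=
            mul_le_mul_of_nonneg_right h1 h4
        _ = wf x * (4 * Real.sin x * Real.sin x ^ 3) := by ring
    nlinarith [sq_nonneg (Nf x - l)]
  · have hc : Real.cos x ≤ 0 := Real.cos_nonpos_of_pi_div_two_le_of_le h (by linarith [Real.pi_pos])
    have hpi := Real.pi_gt_three
    have hpi2 := Real.pi_lt_d2
    have hs1 := Real.sin_le_one x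
    have hp : x ≤ pf x := by
      unfold pf
      nlinarith
    have hN : 1 / 2 ≤ Nf x := by
      rw [Nf_eq, le_div_iff₀ (by positivity)]
      have : Real.sin x ^ 2 ≤ 1 := Real.sin_sq_le_one x
      linarith
    -- tangent bound
    have ht : (x - Real.pi / 2) * Real.sin x ≤ -Real.cos x := by
      have h1 := Real.le_tan (x := x - Real.pi / 2) (by linarith) (by linarith)
      rw [Real.tan_eq_sin_div_cos, Real.sin_sub_pi_div_two, Real.cos_sub_pi_div_two,
        le_div_iff₀ hs] at h1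
      exact h1
    have hXN : 1 / 12 ≤ Xf x - Nf x := by
      have e : Xf x - Nf x = (2 * Real.sin x - 2 * x * Real.cos x - x * Real.sin x +
          Real.sin x ^ 2 * Real.cos x) / (2 * Real.sin x ^ 3) := by
        unfold Xf Nf
        field_simp
        ring
      rw [e, le_div_iff₀ (by positivity)]
      have hs3 : Real.sin x ^ 3 ≤ Real.sin x := by
        have : Real.sin x ^ 2 ≤ 1 := Real.sin_sq_le_one x
        nlinarith
      have h5 : Real.sin x ^ 2 * (-Real.cos x) ≤ -Real.cos x := by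
        have : Real.sin x ^ 2 ≤ 1 := Real.sin_sq_le_one x
        nlinarith
      have h6 : (x - Real.pi / 2) * (-Real.cos x) ≥ 0 := mul_nonneg (by linarith) (by linarith)
      nlinarith
    nlinarith [sq_nonneg (l - 1 / 2)]

lemma Nf_hasDeriv {x : ℝ} (hs : Real.sin x ≠ 0) : HasDerivAt Nf (Xf x) x := by
  have h1 : HasDerivAt (fun x : ℝ => 2 * Real.sin x ^ 2) (2 * (2 * Real.sin x * Real.cos x)) x := by
    have := ((Real.hasDerivAt_sin x).pow 2).const_mul 2
    refine this.congr_deriv ?_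
    norm_num
  have h2 := (pf_deriv x).div h1 (by positivity)
  refine h2.congr_deriv ?_
  unfold Xf pf
  field_simp
  linear_combination (Real.sin x) * Real.sin_sq_add_cos_sq x

lemma Jf_hasDeriv {x : ℝ} (hx : x ≠ 0) (hs : Real.sin x ≠ 0) : HasDerivAt Jf (-(2 * Nf x)) x := by
  have h1 : HasDerivAt (fun x : ℝ => x * Real.cos x / Real.sin x)
      (((1 * Real.cos x + x * -Real.sin x) * Real.sin x - x * Real.cos x * Real.cos x) /
        Real.sin x ^ 2) x :=
    ((hasDerivAt_id x).mul (Real.hasDerivAt_cos x)).div (Real.hasDerivAt_sin x) hs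
  have h2 : Jf =ᶠ[nhds x] fun x : ℝ => x * Real.cos x / Real.sin x := by
    filter_upwards [isOpen_ne.mem_nhds hx] with y hy
    unfold Jf
    rw [Real.sinc_of_ne_zero hy, div_div_eq_mul_div]
    ring
  refine (h1.congr_of_eventuallyEq h2).congr_deriv ?_
  unfold Nf
  field_simp
  linear_combination (-x) * Real.sin_sq_add_cos_sq x

lemma sin_ne {x : ℝ} (hx : x ∈ Ioo (-Real.pi) Real.pi) (h0 : x ≠ 0) : Real.sin x ≠ 0 := by
  rcases lt_or_gt_of_ne h0 with h | h
  · exact (Real.sin_neg_of_neg_of_neg_pi_lt h hx.1).ne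
  · exact (Real.sin_pos_of_pos_of_lt_pi h hx.2).ne'

lemma Nf_abs_le {x : ℝ} (hx : |x| ≤ Real.pi / 2) : |Nf x| ≤ |x| := by
  have key : ∀ y : ℝ, 0 ≤ y → y ≤ Real.pi / 2 → |Nf y| ≤ |y| := by
    intro y hy hy2
    rcases eq_or_lt_of_le hy with h | h
    · subst h; simp [Nf]
    · have hpi := Real.pi_gt_three
      have hpi2 := Real.pi_lt_d2
      have hs : 0 < Real.sin y := Real.sin_pos_of_pos_of_lt_pi h (by linarith)
      have h1 : 0 ≤ Nf y := by
        rw [Nf_eq]; exact div_nonneg (pf_nonneg hy) (by positivity)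
      rw [abs_of_nonneg h1, abs_of_nonneg hy, Nf_eq, div_le_iff₀ (by positivity)]
      have h2 := pf_le hy
      have h3 := Real.mul_le_sin hy hy2
      have h4 : (2 / Real.pi * y) ^ 2 ≤ Real.sin y ^ 2 := by
        apply pow_le_pow_left₀ (by positivity) h3
      have h5 : (1 / 3 : ℝ) * y ^ 2 ≤ (2 / Real.pi * y) ^ 2 := by
        rw [mul_pow, div_pow]
        apply mul_le_mul_of_nonneg_right _ (by positivity)
        rw [div_le_div_iff₀ (by norm_num) (by positivity)]
        nlinarith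
      nlinarith
  rcases le_total 0 x with h | h
  · exact key x h (by rwa [abs_of_nonneg h] at hx)
  · have := key (-x) (by linarith) (by rwa [abs_of_nonpos h] at hx)
    rwa [Nf_neg, abs_neg, abs_neg] at this

/-- **KERN.** -/
theorem kern : KERNStatement := by
  have hpi := Real.pi_pos
  have hNc : ContinuousOn Nf (Ioo (-Real.pi) Real.pi) := by
    intro x hx
    apply ContinuousAt.continuousWithinAt
    by_cases h0 : x = 0
    · subst h0
      have h1 : Nf 0 = 0 := by simp [Nf]
      rw [ContinuousAt, h1]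
      apply squeeze_zero_norm' (a := fun x : ℝ => |x|)
      · have : ∀ᶠ y : ℝ in nhds 0, |y| < Real.pi / 2 := by
          have hc : ContinuousAt (fun y : ℝ => |y|) 0 := continuous_abs.continuousAt
          apply hc.eventually (gt_mem_nhds _)
          simp; positivity
        filter_upwards [this] with y hy
        exact Nf_abs_le hy.le
      · have hc : ContinuousAt (fun y : ℝ => |y|) 0 := continuous_abs.continuousAt
        have := hc.tendsto
        simpa using this
    · exact (Nf_hasDeriv (sin_ne hx h0)).continuousAt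
  have hXge : ∀ x ∈ Ioo (-Real.pi) Real.pi, x ≠ 0 → 1 / 3 ≤ Xf x := by
    intro x hx h0
    rcases lt_or_gt_of_ne h0 with h | h
    · rw [← Xf_neg]
      exact Xf_ge (by linarith) (by linarith [hx.1])
    · exact Xf_ge h hx.2
  refine ⟨hNc, ?_, ?_, ?_, ?_⟩
  · intro x hx
    apply ContinuousAt.continuousWithinAt
    unfold Jf
    apply ContinuousAt.div Real.continuous_cos.continuousAt Real.continuous_sinc.continuousAt
    by_cases h0 : x = 0
    · subst h0; simp
    · rw [Real.sinc_of_ne_zero h0]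
      exact div_ne_zero (sin_ne hx h0) h0
  · intro x hx h0
    exact ⟨Nf_hasDeriv (sin_ne hx h0), Jf_hasDeriv h0 (sin_ne hx h0), hXge x hx h0⟩
  · have key : ∀ b ∈ Ioo (-Real.pi) Real.pi, IntervalIntegrable Xf volume 0 b := by
      intro b hb
      have hsub : uIcc 0 b ⊆ Ioo (-Real.pi) Real.pi := by
        intro y hy
        rw [mem_uIcc] at hy
        rcases hy with hy | hy
        · exact ⟨by linarith [hy.1], by linarith [hy.2, hb.2]⟩
        · exact ⟨by linarith [hy.1, hb.1], by linarith [hy.2]⟩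
      have hmem : ∀ x ∈ Ioo (min 0 b) (max 0 b), x ∈ Ioo (-Real.pi) Real.pi ∧ x ≠ 0 := by
        intro x hx
        refine ⟨hsub (Ioo_subset_Icc_self hx), ?_⟩
        rintro rfl
        rcases le_total 0 b with h | h
        · rw [min_eq_left h] at hx
          exact lt_irrefl _ hx.1
        · rw [max_eq_left h] at hx
          exact lt_irrefl _ hx.2
      apply intervalIntegral.intervalIntegrable_deriv_of_nonneg (g := Nf) (hNc.mono hsub)
      · intro x hx
        obtain ⟨h1, h2⟩ := hmem x hx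
        exact Nf_hasDeriv (sin_ne h1 h2)
      · intro x hx
        obtain ⟨h1, h2⟩ := hmem x hx
        linarith [hXge x h1 h2]
    intro a ha b hb
    exact (key a ha).symm.trans (key b hb)
  · intro x hx h0 l hl0 hl1
    rcases lt_or_gt_of_ne h0 with h | h
    · have := kernel_pos (x := -x) (by linarith) (by linarith [hx.1]) hl1
      rw [Xf_neg, Nf_neg] at this
      linarith
    · have h1 := kernel_pos h hx.2 hl1
      have h2 : 0 ≤ Nf x := by
        rw [Nf_eq]; exact div_nonneg (pf_nonneg h.le) (by positivity)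
      nlinarith

end

end Pool.Agent.Lib.MP_7682a8_an.OM.H86
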