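import Mathlib
import Pool.Agent.Lib.MP_7682a8_an.OM.Base

/-!
From the core statement to all directions and radii (RAY), and to half-lines (HALF).
-/

set_option autoImplicit false

open Metric MeasureTheory Set

namespace Pool.Agent.Lib.MP_7682a8_an.OM.H86

open Pool.Agent.Lib.MP_7682a8_an.OM

open scoped Pointwise

noncomputable section

lemma ray_pos (hC : COREStatement) {h g : ℂ → ℂ} (hh : DifferentiableOn ℂ h (ball 0 1))
    (hg : DifferentiableOn ℂ g (ball 0 1)) (hh0 : h 0 = 0) (hg0 : g 0 = 0) (hh1 : deriv h 0 = 1)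
    (hg1 : deriv g 0 = 0) (hlt : ∀ z ∈ ball (0:ℂ) 1, ‖deriv g z‖ < ‖deriv h z‖)
    {r : ℝ} (hr0 : 0 < r) (hr1 : r < 1) {u : ℂ} (hu : ‖u‖ = 1) {κ : ℝ} (hκ0 : 0 < κ)
    (hκ1 : κ ≤ r / 6) :
    ∃ z : ℂ, ‖z‖ = r ∧ (starRingEnd ℂ u * (h z + starRingEnd ℂ (g z))).im = κ ∧
      r / 6 - 7 / 3 * κ ^ 2 / (r - 2 * κ) ≤ (starRingEnd ℂ u * (h z + starRingEnd ℂ (g z))).re := by
  have huu : starRingEnd ℂ u * u = 1 := by
    rw [Complex.conj_mul', hu]; norm_num
  have hR : 1 < 1 / r := by rw [lt_div_iff₀ hr0]; linarith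
  obtain ⟨v, hv⟩ : ∃ v : ℂ, v = -(u * r) := ⟨_, rfl⟩
  have hvn : ‖v‖ = r := by
    rw [hv, norm_neg, norm_mul, hu, one_mul, Complex.norm_real, Real.norm_of_nonneg hr0.le]
  have hrC : (r:ℂ) ≠ 0 := by exact_mod_cast hr0.ne'
  have hmap : ∀ z ∈ ball (0:ℂ) (1 / r), v * z ∈ ball (0:ℂ) 1 := by
    intro z hz
    rw [mem_ball_zero_iff] at hz ⊢
    rw [norm_mul, hvn]
    calc r * ‖z‖ < r * (1 / r) := mul_lt_mul_of_pos_left hz hr0
      _ = 1 := by field_simp
  have hlin : ∀ z : ℂ, HasDerivAt (fun z : ℂ => v * z) v z := fun z => by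
    simpa using (hasDerivAt_id z).const_mul v
  have hh' : ∀ z ∈ ball (0:ℂ) (1 / r), HasDerivAt (fun z => -(starRingEnd ℂ u) / r * h (v * z))
      (deriv h (v * z)) z := by
    intro z hz
    have h1 : HasDerivAt h (deriv h (v * z)) (v * z) :=
      (hh.differentiableAt (isOpen_ball.mem_nhds (hmap z hz))).hasDerivAt
    have h2 := (HasDerivAt.comp (h := fun z : ℂ => v * z) z h1 (hlin z)).const_mul
      (-(starRingEnd ℂ u) / r)
    refine h2.congr_deriv ?_
    have : -(starRingEnd ℂ u) / r * (deriv h (v * z) * v) =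
        (starRingEnd ℂ u * u) * (deriv h (v * z)) := by
      rw [hv]; field_simp
    rw [this, huu, one_mul]
  have hg' : ∀ z ∈ ball (0:ℂ) (1 / r), HasDerivAt (fun z => -u / r * g (v * z))
      (u ^ 2 * deriv g (v * z)) z := by
    intro z hz
    have h1 : HasDerivAt g (deriv g (v * z)) (v * z) :=
      (hg.differentiableAt (isOpen_ball.mem_nhds (hmap z hz))).hasDerivAt
    have h2 := (HasDerivAt.comp (h := fun z : ℂ => v * z) z h1 (hlin z)).const_mul (-u / r)
    refine h2.congr_deriv ?_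
    rw [hv]; field_simp
  have h0 : (0:ℂ) ∈ ball (0:ℂ) (1 / r) := mem_ball_self (by positivity)
  obtain ⟨z, hz, him, hre⟩ := hC (1 / r) (fun z => -(starRingEnd ℂ u) / r * h (v * z))
    (fun z => -u / r * g (v * z)) hR
    (fun z hz => (hh' z hz).differentiableAt.differentiableWithinAt)
    (fun z hz => (hg' z hz).differentiableAt.differentiableWithinAt)
    (by simp [hh0]) (by simp [hg0])
    (by rw [(hh' 0 h0).deriv, mul_zero, hh1]) (by rw [(hg' 0 h0).deriv, mul_zero, hg1, mul_zero])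
    (by
      intro z hz
      rw [(hh' z hz).deriv, (hg' z hz).deriv, norm_mul, norm_pow, hu, one_pow, one_mul]
      exact hlt _ (hmap z hz)) (κ / r) (by positivity) (by
        rw [div_le_iff₀ hr0]; linarith)
  refine ⟨v * z, by rw [norm_mul, hz, mul_one, hvn], ?_⟩
  have e : -(starRingEnd ℂ u) / r * h (v * z) + starRingEnd ℂ (-u / r * g (v * z)) =
      ((-(1 / r) : ℝ) : ℂ) * (starRingEnd ℂ u * (h (v * z) + starRingEnd ℂ (g (v * z)))) := by
    rw [map_mul, map_div₀, map_neg, Complex.conj_ofReal]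
    push_cast
    ring
  rw [e, Complex.im_ofReal_mul] at him
  rw [e, Complex.re_ofReal_mul] at hre
  have hrk : 0 < r - 2 * κ := by linarith
  constructor
  · field_simp at him
    linarith
  · have h1 : (1 / 6 - 7 / 3 * (κ / r) ^ 2 / (1 - 2 * (κ / r))) * r =
        r / 6 - 7 / 3 * κ ^ 2 / (r - 2 * κ) := by
      have h2 : (1:ℝ) - 2 * (κ / r) = (r - 2 * κ) / r := by field_simp
      rw [h2]
      field_simp
    rw [← h1]
    have h3 := mul_le_mul_of_nonneg_right hre hr0.le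
    have h4 : -(1 / r) * (starRingEnd ℂ u * (h (v * z) + starRingEnd ℂ (g (v * z)))).re * r =
        -(starRingEnd ℂ u * (h (v * z) + starRingEnd ℂ (g (v * z)))).re := by
      field_simp
    rw [h4] at h3
    linarith

/-- **RAY.** -/
theorem ray (hC : COREStatement) : RAYStatement := by
  intro h g hh hg hh0 hg0 hh1 hg1 hlt r hr0 hr1 u hu κ hκ0 hκ1
  rcases lt_or_gt_of_ne hκ0 with hneg | hpos
  · rw [abs_of_neg hneg] at hκ1 ⊢
    have hcb : ∀ z ∈ ball (0:ℂ) 1, starRingEnd ℂ z ∈ ball (0:ℂ) 1 := by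
      intro z hz
      rw [mem_ball_zero_iff] at hz ⊢
      rwa [Complex.norm_conj]
    have hd : ∀ (F : ℂ → ℂ), DifferentiableOn ℂ F (ball 0 1) → ∀ z ∈ ball (0:ℂ) 1,
        HasDerivAt (fun z => starRingEnd ℂ (F (starRingEnd ℂ z)))
          (starRingEnd ℂ (deriv F (starRingEnd ℂ z))) z := by
      intro F hF z hz
      have h1 : HasDerivAt F (deriv F (starRingEnd ℂ z)) (starRingEnd ℂ z) :=
        (hF.differentiableAt (isOpen_ball.mem_nhds (hcb z hz))).hasDerivAt
      have h2 := h1.conj_conj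
      rw [Complex.conj_conj] at h2
      exact h2
    have h0 : (0:ℂ) ∈ ball (0:ℂ) 1 := mem_ball_self one_pos
    obtain ⟨z, hz, him, hre⟩ := ray_pos hC (h := fun z => starRingEnd ℂ (h (starRingEnd ℂ z)))
      (g := fun z => starRingEnd ℂ (g (starRingEnd ℂ z)))
      (fun z hz => (hd h hh z hz).differentiableAt.differentiableWithinAt)
      (fun z hz => (hd g hg z hz).differentiableAt.differentiableWithinAt)
      (by simp [hh0]) (by simp [hg0])
      (by rw [(hd h hh 0 h0).deriv, map_zero, hh1, map_one])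
      (by rw [(hd g hg 0 h0).deriv, map_zero, hg1, map_zero])
      (by
        intro z hz
        rw [(hd h hh z hz).deriv, (hd g hg z hz).deriv, Complex.norm_conj, Complex.norm_conj]
        exact hlt _ (hcb z hz)) hr0 hr1 (u := starRingEnd ℂ u) (by rw [Complex.norm_conj, hu])
      (κ := -κ) (by linarith) (by linarith)
    have e : starRingEnd ℂ (starRingEnd ℂ u) * (starRingEnd ℂ (h (starRingEnd ℂ z)) +
        starRingEnd ℂ (starRingEnd ℂ (g (starRingEnd ℂ z)))) =
        starRingEnd ℂ (starRingEnd ℂ u * (h (starRingEnd ℂ z) +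
          starRingEnd ℂ (g (starRingEnd ℂ z)))) := by
      simp only [map_mul, map_add, Complex.conj_conj]
    rw [e, Complex.conj_im] at him
    rw [e, Complex.conj_re] at hre
    refine ⟨starRingEnd ℂ z, by rw [Complex.norm_conj, hz], by linarith, ?_⟩
    rw [neg_sq] at hre
    exact hre
  · rw [abs_of_pos hpos] at hκ1 ⊢
    exact ray_pos hC hh hg hh0 hg0 hh1 hg1 hlt hr0 hr1 hu hpos hκ1

lemma number {r k x : ℝ} (hr : 0 < r) (hk0 : 0 < k) (hk1 : k ≤ r / 6)
    (hx : x ^ 2 + k ^ 2 < r ^ 2 / 36) : x ≤ r / 6 - 7 / 3 * k ^ 2 / (r - 2 * k) := by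
  have hrk : 0 < r - 2 * k := by linarith
  obtain ⟨m, hm⟩ : ∃ m, m = r - 2 * k := ⟨_, rfl⟩
  obtain ⟨Y, hY⟩ : ∃ Y, Y = r / 6 - 7 / 3 * k ^ 2 / (r - 2 * k) := ⟨_, rfl⟩
  rw [← hY]
  have hYm : Y * (r - 2 * k) = r / 6 * (r - 2 * k) - 7 / 3 * k ^ 2 := by
    rw [hY, sub_mul, div_mul_cancel₀ _ hrk.ne']
  have hY0 : 0 ≤ Y := by
    have : 0 ≤ Y * (r - 2 * k) := by
      rw [hYm]; nlinarith
    exact nonneg_of_mul_nonneg_left this hrk
  have h2 : (r ^ 2 / 36 - k ^ 2) * (r - 2 * k) ^ 2 ≤ (Y * (r - 2 * k)) ^ 2 := by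
    rw [hYm]
    have : 0 ≤ k ^ 2 * (2 * r ^ 2 - 22 * r * k + 85 * k ^ 2) := by
      apply mul_nonneg (by positivity)
      nlinarith [sq_nonneg (11 * k - 2 * r), sq_nonneg k]
    nlinarith
  have h3 : x ^ 2 ≤ Y ^ 2 := by
    have h4 : x ^ 2 * (r - 2 * k) ^ 2 ≤ Y ^ 2 * (r - 2 * k) ^ 2 := by
      rw [mul_pow] at h2
      have : x ^ 2 * (r - 2 * k) ^ 2 ≤ (r ^ 2 / 36 - k ^ 2) * (r - 2 * k) ^ 2 :=
        mul_le_mul_of_nonneg_right (by linarith) (by positivity)
      linarith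
    exact le_of_mul_le_mul_right h4 (by positivity)
  exact le_of_sq_le_sq h3 hY0

/-- Half-lines at the origin. -/
theorem half (hR : RAYStatement) {h g : ℂ → ℂ} (hh : DifferentiableOn ℂ h (ball 0 1))
    (hg : DifferentiableOn ℂ g (ball 0 1)) (hh0 : h 0 = 0) (hg0 : g 0 = 0) (hh1 : deriv h 0 = 1)
    (hg1 : deriv g 0 = 0) (hlt : ∀ z ∈ ball (0:ℂ) 1, ‖deriv g z‖ < ‖deriv h z‖)
    {r : ℝ} (hr0 : 0 < r) (hr1 : r < 1) {u w : ℂ} (hu : ‖u‖ = 1) (hw : ‖w‖ ≤ r / 6) :
    ∃ z : ℂ, ‖z‖ = r ∧ ∃ t : ℝ, 0 ≤ t ∧ h z + starRingEnd ℂ (g z) = w + t * u := by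
  have huu : u * starRingEnd ℂ u = 1 := by
    rw [Complex.mul_conj', hu]; norm_num
  obtain ⟨T, hT⟩ : ∃ T : Set ℂ, T = {x : ℂ | (starRingEnd ℂ u * x).im = 0 ∧
    (starRingEnd ℂ u * x).re ≤ 0} := ⟨_, rfl⟩
  have hTc : IsClosed T := by
    rw [hT]
    apply IsClosed.inter
    · exact isClosed_eq (Complex.continuous_im.comp (continuous_const.mul continuous_id))
        continuous_const
    · exact isClosed_le (Complex.continuous_re.comp (continuous_const.mul continuous_id))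
        continuous_const
  have hsub : sphere (0:ℂ) r ⊆ ball 0 1 := sphere_subset_ball hr1
  have hcomp : IsCompact ((fun z => h z + starRingEnd ℂ (g z)) '' sphere (0:ℂ) r) := by
    apply (isCompact_sphere (0:ℂ) r).image_of_continuousOn
    exact (hh.continuousOn.mono hsub).add
      (Complex.continuous_conj.comp_continuousOn (hg.continuousOn.mono hsub))
  have hScl : IsClosed (((fun z => h z + starRingEnd ℂ (g z)) '' sphere (0:ℂ) r) + T) :=
    hTc.add_left_of_isCompact hcomp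
  have key : ∀ y ∈ ((fun z => h z + starRingEnd ℂ (g z)) '' sphere (0:ℂ) r) + T,
      ∃ z : ℂ, ‖z‖ = r ∧ ∃ t : ℝ, 0 ≤ t ∧ h z + starRingEnd ℂ (g z) = y + t * u := by
    rintro y ⟨_, ⟨z, hz, rfl⟩, x, hx, rfl⟩
    rw [hT] at hx
    refine ⟨z, by simpa using hz, -(starRingEnd ℂ u * x).re, by linarith [hx.2], ?_⟩
    have h1 : starRingEnd ℂ u * x = ((starRingEnd ℂ u * x).re : ℂ) := by
      apply Complex.ext <;> simp only [Complex.ofReal_re, Complex.ofReal_im, hx.1]
    have h2 : x = (starRingEnd ℂ u * x).re * u := by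
      rw [← h1]
      calc x = (u * starRingEnd ℂ u) * x := by rw [huu, one_mul]
        _ = _ := by ring
    simp only
    push_cast
    linear_combination (-1 : ℂ) * h2
  apply key
  -- interior points off the line
  have hint : ∀ y : ℂ, ‖y‖ < r / 6 → (starRingEnd ℂ u * y).im ≠ 0 →
      y ∈ ((fun z => h z + starRingEnd ℂ (g z)) '' sphere (0:ℂ) r) + T := by
    intro y hy him
    have hns : (starRingEnd ℂ u * y).re ^ 2 + |(starRingEnd ℂ u * y).im| ^ 2 = ‖y‖ ^ 2 := by
      have h1 : ‖starRingEnd ℂ u * y‖ = ‖y‖ := by rw [norm_mul, Complex.norm_conj, hu, one_mul]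
      rw [← h1, ← Complex.normSq_eq_norm_sq, Complex.normSq_apply, sq_abs]
      ring
    have hy2 : ‖y‖ ^ 2 < (r / 6) ^ 2 := by
      apply pow_lt_pow_left₀ hy (norm_nonneg _) (by norm_num)
    have hk1 : |(starRingEnd ℂ u * y).im| ≤ r / 6 := by
      refine (Complex.abs_im_le_norm _).trans ?_
      rw [norm_mul, Complex.norm_conj, hu, one_mul]
      exact hy.le
    obtain ⟨z, hz, hzi, hzr⟩ := hR h g hh hg hh0 hg0 hh1 hg1 hlt r hr0 hr1 u hu
      (starRingEnd ℂ u * y).im him hk1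
    have hnum := number hr0 (abs_pos.mpr him) hk1 (x := (starRingEnd ℂ u * y).re) (by
      rw [hns]; linarith [hy2])
    rw [sq_abs] at hnum
    refine ⟨h z + starRingEnd ℂ (g z), ⟨z, by simpa using hz, rfl⟩,
      y - (h z + starRingEnd ℂ (g z)), ?_, by ring⟩
    rw [hT]
    simp only [mem_ofPred_eq, mul_sub, Complex.sub_im, Complex.sub_re]
    constructor
    · rw [hzi]; ring
    · linarith
  -- approximation
  obtain ⟨s, hs1, hs2⟩ : ∃ s : ℝ, |s| = 1 ∧ 0 ≤ s * (starRingEnd ℂ u * w).im := by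
    rcases le_total 0 (starRingEnd ℂ u * w).im with h1 | h1
    · exact ⟨1, by simp, by linarith⟩
    · exact ⟨-1, by simp, by linarith⟩
  have hlim : Filter.Tendsto (fun t : ℝ => (1 - (t:ℂ)) * w + t * ((r / 12 : ℝ) * s * Complex.I * u))
      (nhdsWithin 0 (Ioi 0)) (nhds w) := by
    have hc : Continuous (fun t : ℝ => (1 - (t:ℂ)) * w + t * ((r / 12 : ℝ) * s * Complex.I * u)) := by
      fun_prop
    have := hc.continuousAt.tendsto (x := (0:ℝ))
    simp only [Complex.ofReal_zero, sub_zero, one_mul, zero_mul, add_zero] at this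
    exact this.mono_left nhdsWithin_le_nhds
  apply hScl.mem_of_tendsto hlim
  have hev : ∀ᶠ t : ℝ in nhdsWithin 0 (Ioi 0), t ∈ Ioo (0:ℝ) 1 := Ioo_mem_nhdsGT one_pos
  filter_upwards [hev] with t ht
  apply hint
  · calc ‖(1 - (t:ℂ)) * w + t * ((r / 12 : ℝ) * s * Complex.I * u)‖
        ≤ ‖(1 - (t:ℂ)) * w‖ + ‖(t:ℂ) * ((r / 12 : ℝ) * s * Complex.I * u)‖ := norm_add_le _ _
      _ = (1 - t) * ‖w‖ + t * (r / 12) := by
          have h1 : (1 - (t:ℂ)) = ((1 - t : ℝ) : ℂ) := by push_cast; ring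
          rw [h1, norm_mul, norm_mul, norm_mul, norm_mul, norm_mul, Complex.norm_real,
            Complex.norm_real, Complex.norm_real, Complex.norm_real, Complex.norm_I, hu,
            Real.norm_of_nonneg (by linarith [ht.2]), Real.norm_of_nonneg ht.1.le,
            Real.norm_of_nonneg (by positivity), Real.norm_eq_abs, hs1]
          ring
      _ < r / 6 := by
          have h1 : (1 - t) * ‖w‖ ≤ (1 - t) * (r / 6) :=
            mul_le_mul_of_nonneg_left hw (by linarith [ht.2])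
          have h2 : t * (r / 12) < t * (r / 6) := mul_lt_mul_of_pos_left (by linarith) ht.1
          linarith
  · have e : starRingEnd ℂ u * ((1 - (t:ℂ)) * w + t * ((r / 12 : ℝ) * s * Complex.I * u)) =
        ((1 - t : ℝ) : ℂ) * (starRingEnd ℂ u * w) + ((t * (r / 12) * s : ℝ) : ℂ) * Complex.I := by
      have h1 : starRingEnd ℂ u * ((1 - (t:ℂ)) * w + t * ((r / 12 : ℝ) * s * Complex.I * u)) =
        (1 - (t:ℂ)) * (starRingEnd ℂ u * w) + (t * (r / 12 : ℝ) * s * Complex.I) *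
          (u * starRingEnd ℂ u) := by ring
      rw [h1, huu]
      push_cast
      ring
    rw [e, Complex.add_im, Complex.im_ofReal_mul, Complex.im_ofReal_mul, Complex.I_im, mul_one]
    intro h0
    have hss : s * s = 1 := by
      have := sq_abs s
      rw [hs1] at this
      nlinarith
    have h2 : s * ((1 - t) * (starRingEnd ℂ u * w).im + t * (r / 12) * s) = 0 := by
      rw [h0, mul_zero]
    have h3 : 0 ≤ (1 - t) * (s * (starRingEnd ℂ u * w).im) :=
      mul_nonneg (by linarith [ht.2]) hs2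
    have h4 : 0 < t * (r / 12) := mul_pos ht.1 (by positivity)
    nlinarith

end

end Pool.Agent.Lib.MP_7682a8_an.OM.H86
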