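import Mathlib
import Pool.Agent.Lib.MP_7682a8_an.OM.H86.Ray

/-!
Half-lines, arbitrary base point.
-/

set_option autoImplicit false

open Metric MeasureTheory Set

namespace Pool.Agent.Lib.MP_7682a8_an.OM.H86

open Pool.Agent.Lib.MP_7682a8_an.OM

noncomputable section

/-- the disc automorphism used to change the base point -/
def Tm (c z : ℂ) : ℂ := (z + c) / (1 + starRingEnd ℂ c * z)

lemma Tm_den {c : ℂ} (hc : ‖c‖ < 1) {z : ℂ} (hz : z ∈ ball (0:ℂ) 1) :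
    1 + starRingEnd ℂ c * z ≠ 0 := by
  intro h0
  have hz' : ‖z‖ < 1 := by simpa using hz
  have h1 : starRingEnd ℂ c * z = -1 := by linear_combination h0
  have h2 : ‖starRingEnd ℂ c * z‖ = 1 := by rw [h1]; simp
  rw [norm_mul, Complex.norm_conj] at h2
  nlinarith [norm_nonneg c, norm_nonneg z]

lemma Tm_cc (c : ℂ) : ((1 - ‖c‖ ^ 2 : ℝ) : ℂ) = 1 - starRingEnd ℂ c * c := by
  rw [Complex.conj_mul']; push_cast; ring

lemma Tm_mem {c : ℂ} (hc : ‖c‖ < 1) {z : ℂ} (hz : z ∈ ball (0:ℂ) 1) : Tm c z ∈ ball (0:ℂ) 1 := by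
  have hz' : ‖z‖ < 1 := by simpa using hz
  have hc2 : 0 < 1 - ‖c‖ ^ 2 := by nlinarith [norm_nonneg c]
  rw [mem_ball_zero_iff, Tm, norm_div, div_lt_one (norm_pos_iff.mpr (Tm_den hc hz))]
  have key : ‖1 + starRingEnd ℂ c * z‖ ^ 2 - ‖z + c‖ ^ 2 = (1 - ‖z‖ ^ 2) * (1 - ‖c‖ ^ 2) := by
    rw [← Complex.normSq_eq_norm_sq, ← Complex.normSq_eq_norm_sq, ← Complex.normSq_eq_norm_sq,
      ← Complex.normSq_eq_norm_sq]
    simp only [Complex.normSq_apply, Complex.add_re, Complex.add_im, Complex.mul_re,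
      Complex.mul_im, Complex.one_re, Complex.one_im, Complex.conj_re, Complex.conj_im]
    ring
  have h2 : 0 < 1 - ‖z‖ ^ 2 := by nlinarith [norm_nonneg z]
  have h3 : ‖z + c‖ ^ 2 < ‖1 + starRingEnd ℂ c * z‖ ^ 2 := by
    have := mul_pos h2 hc2
    linarith
  exact lt_of_pow_lt_pow_left₀ 2 (norm_nonneg _) h3

lemma Tm_deriv {c : ℂ} (hc : ‖c‖ < 1) {z : ℂ} (hz : z ∈ ball (0:ℂ) 1) :
    HasDerivAt (Tm c) (((1 - ‖c‖ ^ 2 : ℝ) : ℂ) / (1 + starRingEnd ℂ c * z) ^ 2) z := by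
  have a1 : HasDerivAt (fun z : ℂ => z + c) 1 z := (hasDerivAt_id z).add_const c
  have a2 : HasDerivAt (fun z : ℂ => 1 + starRingEnd ℂ c * z) (starRingEnd ℂ c * 1) z :=
    ((hasDerivAt_id z).const_mul _).const_add 1
  have a3 := a1.div a2 (Tm_den hc hz)
  refine a3.congr_deriv ?_
  congr 1
  rw [Tm_cc]; ring

lemma Tm_zero (c : ℂ) : Tm c 0 = c := by simp [Tm]

lemma Tm_dist {c : ℂ} (hc : ‖c‖ < 1) {z : ℂ} (hz : z ∈ ball (0:ℂ) 1) :
    ‖Tm c z - c‖ = ‖z‖ * ‖1 - starRingEnd ℂ c * Tm c z‖ := by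
  have hd := Tm_den hc hz
  have h1 : Tm c z - c = z * (((1 - ‖c‖ ^ 2 : ℝ) : ℂ)) / (1 + starRingEnd ℂ c * z) := by
    rw [Tm, div_sub' hd]
    congr 1
    rw [Tm_cc]; ring
  have h2 : 1 - starRingEnd ℂ c * Tm c z =
      (((1 - ‖c‖ ^ 2 : ℝ) : ℂ)) / (1 + starRingEnd ℂ c * z) := by
    rw [Tm, mul_div_assoc', one_sub_div hd]
    congr 1
    rw [Tm_cc]; ring
  rw [h1, h2, norm_div, norm_mul, norm_div]
  ring

lemma lam_norm (a b x y : ℂ) : ‖starRingEnd ℂ a * x - starRingEnd ℂ b * y‖ ^ 2 -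
    ‖a * y - b * x‖ ^ 2 = (‖a‖ ^ 2 - ‖b‖ ^ 2) * (‖x‖ ^ 2 - ‖y‖ ^ 2) := by
  rw [← Complex.normSq_eq_norm_sq, ← Complex.normSq_eq_norm_sq, ← Complex.normSq_eq_norm_sq,
    ← Complex.normSq_eq_norm_sq, ← Complex.normSq_eq_norm_sq, ← Complex.normSq_eq_norm_sq]
  simp only [Complex.normSq_apply, Complex.sub_re, Complex.sub_im, Complex.mul_re,
    Complex.mul_im, Complex.conj_re, Complex.conj_im]
  ring

/-- Half-lines, arbitrary base point. -/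
theorem half_point (hR : RAYStatement) {h g : ℂ → ℂ} (hh : DifferentiableOn ℂ h (ball 0 1))
    (hg : DifferentiableOn ℂ g (ball 0 1))
    (hlt : ∀ z ∈ ball (0:ℂ) 1, ‖deriv g z‖ < ‖deriv h z‖) {c : ℂ} (hc : c ∈ ball (0:ℂ) 1)
    {r : ℝ} (hr0 : 0 < r) (hr1 : r < 1) {u w : ℂ} (hu : u ≠ 0)
    (hw : ‖starRingEnd ℂ (deriv h c) * (w - (h c + starRingEnd ℂ (g c))) -
      starRingEnd ℂ (deriv g c) * starRingEnd ℂ (w - (h c + starRingEnd ℂ (g c)))‖ ≤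
      r / 6 * ((1 - ‖c‖ ^ 2) * (‖deriv h c‖ ^ 2 - ‖deriv g c‖ ^ 2))) :
    ∃ z ∈ ball (0:ℂ) 1, ‖z - c‖ = r * ‖1 - starRingEnd ℂ c * z‖ ∧ ∃ t : ℝ, 0 ≤ t ∧
      h z + starRingEnd ℂ (g z) = w + t * u := by
  have hcn : ‖c‖ < 1 := by simpa using hc
  have hc2 : 0 < 1 - ‖c‖ ^ 2 := by nlinarith [norm_nonneg c]
  have h0mem : (0:ℂ) ∈ ball (0:ℂ) 1 := mem_ball_self one_pos
  obtain ⟨a, ha⟩ : ∃ a, a = deriv h c := ⟨_, rfl⟩
  obtain ⟨b, hb⟩ : ∃ b, b = deriv g c := ⟨_, rfl⟩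
  obtain ⟨m, hm⟩ : ∃ m : ℝ, m = 1 - ‖c‖ ^ 2 := ⟨_, rfl⟩
  obtain ⟨J, hJ⟩ : ∃ J : ℝ, J = ‖a‖ ^ 2 - ‖b‖ ^ 2 := ⟨_, rfl⟩
  obtain ⟨fc, hfc⟩ : ∃ fc, fc = h c + starRingEnd ℂ (g c) := ⟨_, rfl⟩
  rw [← ha, ← hb, ← hm, ← hJ, ← hfc] at hw
  have hab : ‖b‖ < ‖a‖ := by rw [ha, hb]; exact hlt c hc
  have hJ0 : 0 < J := by
    rw [hJ]
    have : ‖b‖ ^ 2 < ‖a‖ ^ 2 := pow_lt_pow_left₀ hab (norm_nonneg _) (by norm_num)
    linarith
  have hm0 : 0 < m := by rw [hm]; exact hc2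
  have hmJ : 0 < m * J := mul_pos hm0 hJ0
  have hmJC : ((m * J : ℝ) : ℂ) ≠ 0 := by exact_mod_cast hmJ.ne'
  have haa : ((J : ℝ) : ℂ) = starRingEnd ℂ a * a - starRingEnd ℂ b * b := by
    rw [Complex.conj_mul', Complex.conj_mul', hJ]; push_cast; ring
  -- the real-linear map
  obtain ⟨L, hL⟩ : ∃ L : ℂ → ℂ, ∀ x, L x = starRingEnd ℂ a * x - starRingEnd ℂ b * starRingEnd ℂ x :=
    ⟨_, fun _ => rfl⟩
  have hLinj : ∀ x, L x = 0 → x = 0 := by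
    intro x hx
    rw [hL, sub_eq_zero] at hx
    by_contra hne
    have h1 : ‖starRingEnd ℂ a * x‖ = ‖starRingEnd ℂ b * starRingEnd ℂ x‖ := by rw [hx]
    rw [norm_mul, norm_mul, Complex.norm_conj, Complex.norm_conj, Complex.norm_conj] at h1
    have h2 : ‖a‖ = ‖b‖ := mul_right_cancel₀ (norm_ne_zero_iff.mpr hne) h1
    linarith
  have hLu : L u ≠ 0 := fun h => hu (hLinj u h)
  have hLun : 0 < ‖L u‖ := norm_pos_iff.mpr hLu
  -- the composed functions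
  have hH' : ∀ z ∈ ball (0:ℂ) 1, HasDerivAt (fun z => h (Tm c z) - h c)
      (deriv h (Tm c z) * (((1 - ‖c‖ ^ 2 : ℝ) : ℂ) / (1 + starRingEnd ℂ c * z) ^ 2)) z := by
    intro z hz
    have h1 : HasDerivAt h (deriv h (Tm c z)) (Tm c z) :=
      (hh.differentiableAt (isOpen_ball.mem_nhds (Tm_mem hcn hz))).hasDerivAt
    exact (HasDerivAt.comp z h1 (Tm_deriv hcn hz)).sub_const _
  have hK' : ∀ z ∈ ball (0:ℂ) 1, HasDerivAt (fun z => g (Tm c z) - g c)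
      (deriv g (Tm c z) * (((1 - ‖c‖ ^ 2 : ℝ) : ℂ) / (1 + starRingEnd ℂ c * z) ^ 2)) z := by
    intro z hz
    have h1 : HasDerivAt g (deriv g (Tm c z)) (Tm c z) :=
      (hg.differentiableAt (isOpen_ball.mem_nhds (Tm_mem hcn hz))).hasDerivAt
    exact (HasDerivAt.comp z h1 (Tm_deriv hcn hz)).sub_const _
  obtain ⟨H, hH⟩ : ∃ H : ℂ → ℂ, ∀ z, H z = (starRingEnd ℂ a * (h (Tm c z) - h c) -
    starRingEnd ℂ b * (g (Tm c z) - g c)) / ((m * J : ℝ) : ℂ) := ⟨_, fun _ => rfl⟩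
  obtain ⟨K, hK⟩ : ∃ K : ℂ → ℂ, ∀ z, K z = (a * (g (Tm c z) - g c) -
    b * (h (Tm c z) - h c)) / ((m * J : ℝ) : ℂ) := ⟨_, fun _ => rfl⟩
  have hHd : ∀ z ∈ ball (0:ℂ) 1, HasDerivAt H ((starRingEnd ℂ a * deriv h (Tm c z) -
      starRingEnd ℂ b * deriv g (Tm c z)) * (((1 - ‖c‖ ^ 2 : ℝ) : ℂ) /
        (1 + starRingEnd ℂ c * z) ^ 2) / ((m * J : ℝ) : ℂ)) z := by
    intro z hz
    have h1 : H = fun z => (starRingEnd ℂ a * (h (Tm c z) - h c) -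
      starRingEnd ℂ b * (g (Tm c z) - g c)) / ((m * J : ℝ) : ℂ) := funext hH
    rw [h1]
    refine ((((hH' z hz).const_mul (starRingEnd ℂ a)).sub
      ((hK' z hz).const_mul (starRingEnd ℂ b))).div_const _).congr_deriv ?_
    ring
  have hKd : ∀ z ∈ ball (0:ℂ) 1, HasDerivAt K ((a * deriv g (Tm c z) -
      b * deriv h (Tm c z)) * (((1 - ‖c‖ ^ 2 : ℝ) : ℂ) /
        (1 + starRingEnd ℂ c * z) ^ 2) / ((m * J : ℝ) : ℂ)) z := by
    intro z hz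
    have h1 : K = fun z => (a * (g (Tm c z) - g c) -
      b * (h (Tm c z) - h c)) / ((m * J : ℝ) : ℂ) := funext hK
    rw [h1]
    refine ((((hK' z hz).const_mul a).sub ((hH' z hz).const_mul b)).div_const _).congr_deriv ?_
    ring
  have hLw : ‖L (w - fc) / ((m * J : ℝ) : ℂ)‖ ≤ r / 6 := by
    rw [norm_div, Complex.norm_real, Real.norm_of_nonneg hmJ.le, div_le_iff₀ hmJ, hL]
    exact hw
  obtain ⟨z, hz, t, ht, heq⟩ := half hR (h := H) (g := K)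
    (fun z hz => (hHd z hz).differentiableAt.differentiableWithinAt)
    (fun z hz => (hKd z hz).differentiableAt.differentiableWithinAt)
    (by rw [hH, Tm_zero]; simp) (by rw [hK, Tm_zero]; simp)
    (by
      rw [(hHd 0 h0mem).deriv, Tm_zero, ← ha, ← hb, ← hm, ← haa, mul_zero, add_zero, one_pow,
        div_one]
      push_cast
      have h1 : (m:ℂ) ≠ 0 := by exact_mod_cast hm0.ne'
      have h2 : (J:ℂ) ≠ 0 := by exact_mod_cast hJ0.ne'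
      field_simp)
    (by
      rw [(hKd 0 h0mem).deriv, Tm_zero, ← ha, ← hb]
      have : a * b - b * a = 0 := by ring
      rw [this]; simp)
    (by
      intro z hz
      rw [(hHd z hz).deriv, (hKd z hz).deriv, norm_div, norm_div, norm_mul, norm_mul]
      have h1 : 0 < ‖((1 - ‖c‖ ^ 2 : ℝ) : ℂ) / (1 + starRingEnd ℂ c * z) ^ 2‖ := by
        rw [norm_pos_iff]
        apply div_ne_zero
        · exact_mod_cast hc2.ne'
        · exact pow_ne_zero 2 (Tm_den hcn hz)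
      have h2 : 0 < ‖((m * J : ℝ) : ℂ)‖ := norm_pos_iff.mpr hmJC
      apply div_lt_div_of_pos_right _ h2
      apply mul_lt_mul_of_pos_right _ h1
      apply lt_of_pow_lt_pow_left₀ 2 (norm_nonneg _)
      have h3 := lam_norm a b (deriv h (Tm c z)) (deriv g (Tm c z))
      have h4 : ‖deriv g (Tm c z)‖ ^ 2 < ‖deriv h (Tm c z)‖ ^ 2 :=
        pow_lt_pow_left₀ (hlt _ (Tm_mem hcn hz)) (norm_nonneg _) (by norm_num)
      have h5 : 0 < (‖a‖ ^ 2 - ‖b‖ ^ 2) * (‖deriv h (Tm c z)‖ ^ 2 - ‖deriv g (Tm c z)‖ ^ 2) := by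
        rw [← hJ]
        exact mul_pos hJ0 (by linarith)
      linarith)
    hr0 hr1 (u := L u / ((‖L u‖ : ℝ) : ℂ)) (w := L (w - fc) / ((m * J : ℝ) : ℂ))
    (by rw [norm_div, Complex.norm_real, norm_norm, div_self hLun.ne']) hLw
  have hzb : z ∈ ball (0:ℂ) 1 := by rw [mem_ball_zero_iff, hz]; exact hr1
  have hLuC : ((‖L u‖ : ℝ) : ℂ) ≠ 0 := by exact_mod_cast hLun.ne'
  refine ⟨Tm c z, Tm_mem hcn hzb, by rw [Tm_dist hcn hzb, hz], t * (m * J) / ‖L u‖,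
    by positivity, ?_⟩
  -- unfold the equation
  have h1 : H z + starRingEnd ℂ (K z) =
      L (h (Tm c z) + starRingEnd ℂ (g (Tm c z)) - fc) / ((m * J : ℝ) : ℂ) := by
    rw [hH, hK, hL, hfc, map_div₀, Complex.conj_ofReal, ← add_div]
    congr 1
    simp only [map_sub, map_mul, map_add, Complex.conj_conj]
    ring
  rw [h1] at heq
  have h2 : L (h (Tm c z) + starRingEnd ℂ (g (Tm c z)) - fc) =
      L (w - fc) + ((t * (m * J) / ‖L u‖ : ℝ) : ℂ) * L u := by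
    rw [div_eq_iff hmJC] at heq
    rw [heq, add_mul, div_mul_cancel₀ _ hmJC]
    congr 1
    push_cast
    field_simp
  have h3 : L (h (Tm c z) + starRingEnd ℂ (g (Tm c z)) - (w + ((t * (m * J) / ‖L u‖ : ℝ) : ℂ) * u)) =
      L (h (Tm c z) + starRingEnd ℂ (g (Tm c z)) - fc) -
        (L (w - fc) + ((t * (m * J) / ‖L u‖ : ℝ) : ℂ) * L u) := by
    simp only [hL, map_sub, map_add, map_mul, Complex.conj_ofReal, Complex.conj_conj]
    ring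
  rw [h2, sub_self] at h3
  have h4 := hLinj _ h3
  rw [sub_eq_zero] at h4
  exact h4

end

end Pool.Agent.Lib.MP_7682a8_an.OM.H86
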