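import Mathlib
import Pool.Agent.Lib.MP_7682a8_an.OM.Base

/-!
The real variable theorem (Paper, sections 5 and 6).
-/

set_option autoImplicit false

open Metric MeasureTheory Set

namespace Pool.Agent.Lib.MP_7682a8_an.OM.H86

open Pool.Agent.Lib.MP_7682a8_an.OM

noncomputable section

/-- running infimum -/
def runInf (G : ℝ → ℝ) (t : ℝ) : ℝ := sInf (G '' Iic t)

lemma runInf_le {G : ℝ → ℝ} (hb : ∀ t, BddBelow (G '' Iic t)) {s t : ℝ} (h : s ≤ t) :
    runInf G t ≤ G s := csInf_le (hb t) ⟨s, h, rfl⟩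

lemma le_runInf {G : ℝ → ℝ} {t a : ℝ} (h : ∀ s ≤ t, a ≤ G s) : a ≤ runInf G t := by
  apply le_csInf (⟨G t, t, mem_Iic.mpr le_rfl, rfl⟩ : (G '' Iic t).Nonempty)
  rintro _ ⟨s, hs, rfl⟩
  exact h s hs

lemma runInf_anti {G : ℝ → ℝ} (hb : ∀ t, BddBelow (G '' Iic t)) {s t : ℝ} (h : s ≤ t) :
    runInf G t ≤ runInf G s := le_runInf fun _ hx => runInf_le hb (hx.trans h)

lemma runInf_lip {G : ℝ → ℝ} (hb : ∀ t, BddBelow (G '' Iic t)) {C : ℝ} (hC : 0 ≤ C)
    (hL : ∀ s t, |G s - G t| ≤ C * |s - t|) {s t : ℝ} (h : s ≤ t) :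
    runInf G s - C * (t - s) ≤ runInf G t := by
  apply le_runInf
  intro x hx
  rcases le_total x s with h1 | h1
  · have := runInf_le hb h1
    have h2 : 0 ≤ C * (t - s) := mul_nonneg hC (by linarith)
    linarith
  · have h2 := runInf_le hb (le_refl s)
    have h3 := hL s x
    rw [abs_of_nonpos (show s - x ≤ 0 by linarith)] at h3
    have h4 := le_abs_self (G s - G x)
    have h5 : C * (-(s - x)) ≤ C * (t - s) := mul_le_mul_of_nonneg_left (by linarith) hC
    linarith

lemma runInf_shift {G : ℝ → ℝ} (hb : ∀ t, BddBelow (G '' Iic t)) {T d : ℝ}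
    (hsh : ∀ t, G (t + T) = G t - d) (t : ℝ) : runInf G (t + T) = runInf G t - d := by
  apply le_antisymm
  · have : runInf G (t + T) + d ≤ runInf G t := by
      apply le_runInf
      intro s hs
      have := runInf_le hb (show s + T ≤ t + T by linarith)
      rw [hsh] at this
      linarith
    linarith
  · apply le_runInf
    intro s hs
    have := runInf_le hb (show s - T ≤ t by linarith)
    have h2 := hsh (s - T)
    rw [sub_add_cancel] at h2
    linarith

lemma runInf_const_left {G : ℝ → ℝ} (hb : ∀ t, BddBelow (G '' Iic t)) (hG : Continuous G) {t : ℝ}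
    (h : runInf G t < G t) : ∃ δ > 0, ∀ s ∈ Icc (t - δ) t, runInf G s = runInf G t := by
  obtain ⟨m, hm1, hm2⟩ := exists_between h
  obtain ⟨δ, hδ, hδ'⟩ := Metric.eventually_nhds_iff.mp (hG.continuousAt.eventually (lt_mem_nhds hm2))
  refine ⟨δ / 2, by positivity, fun s hs => ?_⟩
  apply le_antisymm _ (runInf_anti hb hs.2)
  by_contra hlt
  rw [not_le] at hlt
  have h1 : min m (runInf G s) ≤ runInf G t := by
    apply le_runInf
    intro x hx
    rcases le_total x s with h2 | h2
    · exact (min_le_right _ _).trans (runInf_le hb h2)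
    · have : dist x t < δ := by
        rw [Real.dist_eq, abs_of_nonpos (by linarith)]
        linarith [hs.1]
      exact (min_le_left _ _).trans (hδ' this).le
  rcases min_le_iff.mp h1 with h2 | h2
  · linarith
  · linarith

lemma cos_lin_le {t l : ℝ} : Real.cos t + l * Real.sin t ≤ 1 + l ^ 2 / 2 := by
  have h := Real.sin_sq_add_cos_sq t
  nlinarith [sq_nonneg (l - Real.sin t), sq_nonneg (Real.cos t - 1), sq_nonneg (Real.sin t),
    sq_nonneg (l * Real.cos t - Real.sin t)]

/-- Paper, section 6: the estimate for one `τ`, from the data of section 5. -/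
lemma estimate (hK : KERNStatement) {G V E K : ℝ → ℝ} {κ l a τ K0 : ℝ} {S : ℝ → ℝ}
    (hG : ∀ t, HasDerivAt G (V t - κ) t) (hS : ∀ t, HasDerivAt S (E t) t)
    (hV : Continuous V) (hE : Continuous E) (hEn : ∀ t, 0 ≤ E t)
    (hGS : ∀ t, G t + l * S t = K t + E t) (hK0 : ∀ t, K0 ≤ K t)
    (ha : K a + E a = K0) (hb : K (a + 2 * Real.pi) + E (a + 2 * Real.pi) = K0)
    (hl0 : 0 ≤ l) (hl1 : l ≤ 1 / 2) (hτ : τ ∈ Ioo a (a + 2 * Real.pi)) :
    ∫ t in a..(a + 2 * Real.pi), (Nf ((t - τ) / 2) - 1 / 6 * Real.sin t) * (V t - κ) ≤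
      7 / 12 * l ^ 2 * ∫ t in a..(a + 2 * Real.pi), E t := by
  have hpi := Real.pi_pos
  obtain ⟨hNc, -, hder, -, hineq⟩ := hK
  have hx : ∀ t ∈ Icc a (a + 2 * Real.pi), (t - τ) / 2 ∈ Ioo (-Real.pi) Real.pi := by
    intro t ht
    constructor
    · linarith [ht.1, hτ.2]
    · linarith [ht.2, hτ.1]
  obtain ⟨ψ, hψ⟩ : ∃ ψ : ℝ → ℝ, ∀ t, ψ t = Nf ((t - τ) / 2) - 1 / 6 * Real.sin t :=
    ⟨_, fun _ => rfl⟩
  obtain ⟨ψ', hψ'⟩ : ∃ ψ' : ℝ → ℝ, ∀ t, ψ' t = Xf ((t - τ) / 2) / 2 - 1 / 6 * Real.cos t :=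
    ⟨_, fun _ => rfl⟩
  have hψc : ContinuousOn ψ (Icc a (a + 2 * Real.pi)) := by
    have h1 : ContinuousOn (fun t : ℝ => (t - τ) / 2) (Icc a (a + 2 * Real.pi)) := by fun_prop
    have h2 := (hNc.comp h1 hx).sub (continuousOn_const (c := (1:ℝ) / 6) |>.mul Real.continuous_sin.continuousOn)
    refine h2.congr ?_
    intro t _
    rw [hψ]; rfl
  have hψd : ∀ t ∈ Ioo a (a + 2 * Real.pi), t ≠ τ → HasDerivAt ψ (ψ' t) t := by
    intro t ht hne
    have h1 := (hder _ (hx t (Ioo_subset_Icc_self ht)) (by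
      intro h0; apply hne; linarith)).1
    have h2 : HasDerivAt (fun t : ℝ => (t - τ) / 2) (1 / 2) t := by
      simpa using ((hasDerivAt_id t).sub_const τ).div_const 2
    have h3 : HasDerivAt (fun t : ℝ => Nf ((t - τ) / 2)) (Xf ((t - τ) / 2) * (1 / 2)) t :=
      HasDerivAt.comp (h := fun t : ℝ => (t - τ) / 2) (h₂ := Nf) t h1 h2
    have h4 := h3.sub ((Real.hasDerivAt_sin t).const_mul (1 / 6))
    have h5 : ψ = fun t : ℝ => Nf ((t - τ) / 2) - 1 / 6 * Real.sin t := funext hψ
    rw [h5]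
    refine h4.congr_deriv ?_
    rw [hψ']; ring
  have hψpos : ∀ t ∈ Ioo a (a + 2 * Real.pi), t ≠ τ → 0 ≤ ψ' t := by
    intro t ht hne
    have h1 := (hder _ (hx t (Ioo_subset_Icc_self ht)) (by
      intro h0; apply hne; linarith)).2.2
    rw [hψ']
    linarith [Real.cos_le_one t]
  have hψl : ∀ t ∈ Ioo a (a + 2 * Real.pi), t ≠ τ → -(7 / 12 * l ^ 2) ≤ ψ' t + l * ψ t := by
    intro t ht hne
    have h1 := hineq _ (hx t (Ioo_subset_Icc_self ht)) (by
      intro h0; apply hne; linarith) l hl0 hl1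
    rw [hψ', hψ]
    have h2 := cos_lin_le (t := t) (l := l)
    nlinarith
  obtain ⟨Θ, hΘ⟩ : ∃ Θ : ℝ → ℝ, ∀ t, Θ t = ψ t * (G t + l * S t - K0) := ⟨_, fun _ => rfl⟩
  have hΘf : Θ = fun t => ψ t * (G t + l * S t - K0) := funext hΘ
  have hGc : Continuous G := continuous_iff_continuousAt.mpr fun t => (hG t).continuousAt
  have hSc : Continuous S := continuous_iff_continuousAt.mpr fun t => (hS t).continuousAt
  have hΘc : ContinuousOn Θ (Icc a (a + 2 * Real.pi)) := by
    rw [hΘf]
    exact hψc.mul ((hGc.add (continuous_const.mul hSc)).sub continuous_const).continuousOn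
  have hΘd : ∀ t ∈ Ioo a (a + 2 * Real.pi), t ≠ τ →
      HasDerivAt Θ (ψ' t * (G t + l * S t - K0) + ψ t * (V t - κ + l * E t)) t := by
    intro t ht hne
    rw [hΘf]
    exact (hψd t ht hne).mul (((hG t).add ((hS t).const_mul l)).sub_const K0)
  have hφ : ∀ t ∈ Ioo a (a + 2 * Real.pi), t ≠ τ →
      ψ t * (V t - κ) - 7 / 12 * l ^ 2 * E t ≤
        ψ' t * (G t + l * S t - K0) + ψ t * (V t - κ + l * E t) := by
    intro t ht hne
    have h1 := mul_nonneg (hψpos t ht hne) (sub_nonneg.mpr (hK0 t))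
    have h2 := mul_le_mul_of_nonneg_right (hψl t ht hne) (hEn t)
    rw [hGS t]
    nlinarith
  have hφc : ContinuousOn (fun t => ψ t * (V t - κ) - 7 / 12 * l ^ 2 * E t)
      (Icc a (a + 2 * Real.pi)) :=
    (hψc.mul (hV.sub continuous_const).continuousOn).sub
      (continuousOn_const.mul hE.continuousOn)
  have hΘa : Θ a = 0 := by rw [hΘ, hGS, ha]; ring
  have hΘb : Θ (a + 2 * Real.pi) = 0 := by rw [hΘ, hGS, hb]; ring
  have hs1 : Icc a τ ⊆ Icc a (a + 2 * Real.pi) := Icc_subset_Icc_right hτ.2.le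
  have hs2 : Icc τ (a + 2 * Real.pi) ⊆ Icc a (a + 2 * Real.pi) := Icc_subset_Icc_left hτ.1.le
  have i1 := intervalIntegral.integral_le_sub_of_hasDeriv_right_of_le hτ.1.le (hΘc.mono hs1)
    (g' := fun t => ψ' t * (G t + l * S t - K0) + ψ t * (V t - κ + l * E t))
    (φ := fun t => ψ t * (V t - κ) - 7 / 12 * l ^ 2 * E t)
    (fun t ht => (hΘd t ⟨ht.1, ht.2.trans hτ.2⟩ ht.2.ne).hasDerivWithinAt)
    (hφc.mono hs1).integrableOn_Icc
    (fun t ht => hφ t ⟨ht.1, ht.2.trans hτ.2⟩ ht.2.ne)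
  have i2 := intervalIntegral.integral_le_sub_of_hasDeriv_right_of_le hτ.2.le (hΘc.mono hs2)
    (g' := fun t => ψ' t * (G t + l * S t - K0) + ψ t * (V t - κ + l * E t))
    (φ := fun t => ψ t * (V t - κ) - 7 / 12 * l ^ 2 * E t)
    (fun t ht => (hΘd t ⟨hτ.1.trans ht.1, ht.2⟩ ht.1.ne').hasDerivWithinAt)
    (hφc.mono hs2).integrableOn_Icc
    (fun t ht => hφ t ⟨hτ.1.trans ht.1, ht.2⟩ ht.1.ne')
  have c1 : IntervalIntegrable (fun t => ψ t * (V t - κ) - 7 / 12 * l ^ 2 * E t) volume a τ := by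
    apply ContinuousOn.intervalIntegrable
    rw [uIcc_of_le hτ.1.le]
    exact hφc.mono hs1
  have c2 : IntervalIntegrable (fun t => ψ t * (V t - κ) - 7 / 12 * l ^ 2 * E t) volume τ
      (a + 2 * Real.pi) := by
    apply ContinuousOn.intervalIntegrable
    rw [uIcc_of_le hτ.2.le]
    exact hφc.mono hs2
  have i3 := intervalIntegral.integral_add_adjacent_intervals c1 c2
  rw [hΘa] at i1
  rw [hΘb] at i2
  have d1 : IntervalIntegrable (fun t => ψ t * (V t - κ)) volume a (a + 2 * Real.pi) := by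
    apply ContinuousOn.intervalIntegrable
    rw [uIcc_of_le (by linarith)]
    exact hψc.mul (hV.sub continuous_const).continuousOn
  have d2 : IntervalIntegrable (fun t => 7 / 12 * l ^ 2 * E t) volume a (a + 2 * Real.pi) :=
    (continuous_const.mul hE).intervalIntegrable _ _
  have i4 := intervalIntegral.integral_sub d1 d2
  rw [intervalIntegral.integral_const_mul] at i4
  have i5 : ∫ t in a..(a + 2 * Real.pi), (Nf ((t - τ) / 2) - 1 / 6 * Real.sin t) * (V t - κ) =
      ∫ t in a..(a + 2 * Real.pi), ψ t * (V t - κ) := by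
    apply intervalIntegral.integral_congr
    intro t _
    simp only [hψ]
  rw [i5]
  linarith

/-- `E0 ≥ 1/2 - κ` in integrated form. -/
lemma mean_bound {U M E : ℝ → ℝ} {κ : ℝ} (hM : Continuous M) (hE : Continuous E)
    (hEn : ∀ t, 0 ≤ E t) (hUME : ∀ t, U t = M t + κ * t + E t) (hanti : ∀ s t, s ≤ t → M t ≤ M s)
    (hshift : ∀ t, M (t + 2 * Real.pi) = M t - 2 * Real.pi * κ)
    (hcos : ∫ t in (0:ℝ)..(2 * Real.pi), U t * Real.cos t = Real.pi) :
    Real.pi ≤ 2 * Real.pi * κ + ∫ t in (0:ℝ)..(2 * Real.pi), E t := by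
  have hpi := Real.pi_pos
  obtain ⟨Z, hZ⟩ : ∃ Z : ℝ → ℝ, ∀ t, Z t = M t + κ * t := ⟨_, fun _ => rfl⟩
  have hZf : Z = fun t => M t + κ * t := funext hZ
  have hZc : Continuous Z := by rw [hZf]; fun_prop
  have hZp : ∀ t, Z (t + 2 * Real.pi) = Z t := by
    intro t; rw [hZ, hZ, hshift]; ring
  have hper : Function.Periodic (fun t => Z t * Real.cos t) (2 * Real.pi) := by
    intro t
    simp only [hZp, Real.cos_add_two_pi]
  have hci : ∀ (F : ℝ → ℝ), Continuous F → ∀ a b : ℝ, IntervalIntegrable F volume a b :=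
    fun F hF a b => hF.intervalIntegrable a b
  have hZcc : Continuous (fun t => Z t * Real.cos t) := hZc.mul Real.continuous_cos
  have e1 : ∫ t in (0:ℝ)..(2 * Real.pi), Z t * Real.cos t =
      ∫ t in (-(Real.pi / 2))..(-(Real.pi / 2) + 2 * Real.pi), Z t * Real.cos t := by
    have := hper.intervalIntegral_add_eq 0 (-(Real.pi / 2))
    simpa using this
  have e2 := intervalIntegral.integral_add_adjacent_intervals
    (hci _ hZcc (-(Real.pi / 2)) (Real.pi / 2)) (hci _ hZcc (Real.pi / 2) (-(Real.pi / 2) + 2 * Real.pi))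
  have e3 : ∫ t in (Real.pi / 2)..(-(Real.pi / 2) + 2 * Real.pi), Z t * Real.cos t =
      ∫ t in (-(Real.pi / 2))..(Real.pi / 2), -(Z (t - Real.pi) * Real.cos t) := by
    have h1 := intervalIntegral.integral_comp_add_right (fun t => Z t * Real.cos t) Real.pi
      (a := -(Real.pi / 2)) (b := Real.pi / 2)
    have h2 : -(Real.pi / 2) + Real.pi = Real.pi / 2 := by ring
    have h3 : Real.pi / 2 + Real.pi = -(Real.pi / 2) + 2 * Real.pi := by ring
    rw [h2, h3] at h1
    rw [← h1]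
    apply intervalIntegral.integral_congr
    intro t _
    simp only
    have h4 : Z (t + Real.pi) = Z (t - Real.pi) := by
      rw [← hZp (t - Real.pi)]; congr 1; ring
    rw [h4, Real.cos_add_pi]; ring
  have hZm : Continuous (fun t => -(Z (t - Real.pi) * Real.cos t)) := by
    have : Continuous (fun t : ℝ => Z (t - Real.pi)) := hZc.comp (by fun_prop)
    exact (this.mul Real.continuous_cos).neg
  have e4 := intervalIntegral.integral_add (hci _ hZcc (-(Real.pi / 2)) (Real.pi / 2))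
    (hci _ hZm (-(Real.pi / 2)) (Real.pi / 2))
  have e5 : ∫ t in (-(Real.pi / 2))..(Real.pi / 2), (Z t * Real.cos t + -(Z (t - Real.pi) * Real.cos t)) ≤
      ∫ t in (-(Real.pi / 2))..(Real.pi / 2), κ * Real.pi * Real.cos t := by
    apply intervalIntegral.integral_mono_on (by linarith)
      (hci (fun t => Z t * Real.cos t + -(Z (t - Real.pi) * Real.cos t)) (hZcc.add hZm) _ _)
      (hci (fun t => κ * Real.pi * Real.cos t) (continuous_const.mul Real.continuous_cos) _ _)
    intro t ht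
    have hc : 0 ≤ Real.cos t := Real.cos_nonneg_of_neg_pi_div_two_le_of_le ht.1 ht.2
    have h1 : Z t - Z (t - Real.pi) ≤ κ * Real.pi := by
      rw [hZ, hZ]
      have := hanti (t - Real.pi) t (by linarith)
      linarith
    have h2 := mul_le_mul_of_nonneg_right h1 hc
    linarith
  have e6 : ∫ t in (-(Real.pi / 2))..(Real.pi / 2), κ * Real.pi * Real.cos t = 2 * Real.pi * κ := by
    rw [intervalIntegral.integral_const_mul, integral_cos, Real.sin_neg, Real.sin_pi_div_two]; ring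
  have e7 : ∫ t in (0:ℝ)..(2 * Real.pi), E t * Real.cos t ≤ ∫ t in (0:ℝ)..(2 * Real.pi), E t := by
    apply intervalIntegral.integral_mono_on (by linarith)
      (hci (fun t => E t * Real.cos t) (hE.mul Real.continuous_cos) _ _) (hci _ hE _ _)
    intro t _
    nlinarith [hEn t, Real.cos_le_one t]
  have e8 : ∫ t in (0:ℝ)..(2 * Real.pi), U t * Real.cos t =
      (∫ t in (0:ℝ)..(2 * Real.pi), Z t * Real.cos t) + ∫ t in (0:ℝ)..(2 * Real.pi), E t * Real.cos t := by
    rw [← intervalIntegral.integral_add (hci _ hZcc _ _)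
      (hci (fun t => E t * Real.cos t) (hE.mul Real.continuous_cos) _ _)]
    apply intervalIntegral.integral_congr
    intro t _
    simp only
    rw [hUME, hZ]; ring
  rw [e3, ← e4] at e2
  rw [hcos] at e8
  linarith

/-- **RUN.** -/
theorem run (hK : KERNStatement) : RUNStatement := by
  intro U V hU hVc hUp hnorm κ hκ0 hκ1
  have hpi := Real.pi_pos
  have h2pi : (0:ℝ) < 2 * Real.pi := by positivity
  have hUc : Continuous U := continuous_iff_continuousAt.mpr fun t => (hU t).continuousAt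
  have hVp : Function.Periodic V (2 * Real.pi) := by
    intro t
    have h1 : HasDerivAt (fun s => U (s + 2 * Real.pi)) (V (t + 2 * Real.pi)) t := by
      have := (hU (t + 2 * Real.pi)).comp_add_const t (2 * Real.pi)
      exact this
    have h2 : (fun s => U (s + 2 * Real.pi)) = U := funext hUp
    rw [h2] at h1
    exact h1.unique (hU t)
  -- integral of U cos
  have hcos : ∫ t in (0:ℝ)..(2 * Real.pi), U t * Real.cos t = Real.pi := by
    have h1 := intervalIntegral.integral_mul_deriv_eq_deriv_mul (a := 0) (b := 2 * Real.pi)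
      (u := U) (u' := V) (v := Real.sin) (v' := Real.cos) (fun t _ => hU t)
      (fun t _ => Real.hasDerivAt_sin t) (hVc.intervalIntegrable _ _)
      (Real.continuous_cos.intervalIntegrable _ _)
    rw [h1, hnorm, Real.sin_two_pi, Real.sin_zero]
    ring
  -- G
  obtain ⟨G, hG⟩ : ∃ G : ℝ → ℝ, ∀ t, G t = U t - κ * t := ⟨_, fun _ => rfl⟩
  have hGf : G = fun t => U t - κ * t := funext hG
  have hGd : ∀ t, HasDerivAt G (V t - κ) t := by
    intro t
    rw [hGf]
    have h1 : HasDerivAt (fun t : ℝ => κ * t) κ t := by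
      simpa using (hasDerivAt_id t).const_mul κ
    exact (hU t).sub h1
  have hGc : Continuous G := continuous_iff_continuousAt.mpr fun t => (hGd t).continuousAt
  have hGs : ∀ t, G (t + 2 * Real.pi) = G t - 2 * Real.pi * κ := by
    intro t; rw [hG, hG, hUp]; ring
  -- bounds
  have hUper : Function.Periodic U (2 * Real.pi) := hUp
  obtain ⟨mU, hmU⟩ : ∃ m, ∀ t, m ≤ U t := by
    obtain ⟨x, -, hx⟩ := (isCompact_Icc (a := (0:ℝ)) (b := 2 * Real.pi)).exists_isMinOn
      ⟨0, le_rfl, h2pi.le⟩ hUc.continuousOn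
    refine ⟨U x, fun t => ?_⟩
    obtain ⟨y, hy, hty⟩ := hUper.exists_mem_Ico₀ h2pi t
    rw [hty]
    exact hx ⟨hy.1, hy.2.le⟩
  obtain ⟨C, hC0, hC⟩ : ∃ C : ℝ, 0 ≤ C ∧ ∀ t, ‖V t - κ‖ ≤ C := by
    obtain ⟨C, hC⟩ := (isCompact_Icc (a := (0:ℝ)) (b := 2 * Real.pi)).exists_bound_of_continuousOn
      (f := fun t => V t - κ) (hVc.sub continuous_const).continuousOn
    refine ⟨C, (norm_nonneg _).trans (hC 0 ⟨le_rfl, h2pi.le⟩), fun t => ?_⟩
    obtain ⟨y, hy, hty⟩ := hVp.exists_mem_Ico₀ h2pi t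
    rw [hty]
    exact hC y ⟨hy.1, hy.2.le⟩
  have hlip : ∀ s t, |G s - G t| ≤ C * |s - t| := by
    intro s t
    have := (convex_univ (𝕜 := ℝ) (E := ℝ)).norm_image_sub_le_of_norm_hasDerivWithin_le (f := G)
      (f' := fun t => V t - κ) (C := C) (x := t) (y := s)
      (fun x _ => (hGd x).hasDerivWithinAt) (fun x _ => hC x) (mem_univ _) (mem_univ _)
    simpa [Real.norm_eq_abs] using this
  have hbdd : ∀ t, BddBelow (G '' Iic t) := by
    intro t
    refine ⟨mU - κ * t, ?_⟩
    rintro _ ⟨s, hs, rfl⟩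
    rw [hG]
    have h1 := hmU s
    have h2 : κ * s ≤ κ * t := mul_le_mul_of_nonneg_left hs hκ0.le
    linarith
  -- M, E
  obtain ⟨M, hM⟩ : ∃ M : ℝ → ℝ, M = runInf G := ⟨_, rfl⟩
  have hMle : ∀ s t, s ≤ t → M t ≤ G s := by
    intro s t h; rw [hM]; exact runInf_le hbdd h
  have hManti : ∀ s t, s ≤ t → M t ≤ M s := by
    intro s t h; rw [hM]; exact runInf_anti hbdd h
  have hMs : ∀ t, M (t + 2 * Real.pi) = M t - 2 * Real.pi * κ := by
    intro t; rw [hM]; exact runInf_shift hbdd hGs t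
  have hMlip : ∀ s t, s ≤ t → M s - C * (t - s) ≤ M t := by
    intro s t h; rw [hM]; exact runInf_lip hbdd hC0 hlip h
  have hMc : Continuous M := by
    have : LipschitzWith ⟨C, hC0⟩ M := by
      apply LipschitzWith.of_dist_le_mul
      intro s t
      rw [Real.dist_eq, Real.dist_eq]
      change |M s - M t| ≤ C * |s - t|
      rcases le_total s t with h | h
      · have h1 := hManti s t h
        have h2 := hMlip s t h
        rw [abs_of_nonneg (by linarith), abs_of_nonpos (by linarith)]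
        linarith
      · have h1 := hManti t s h
        have h2 := hMlip t s h
        rw [abs_of_nonpos (by linarith), abs_of_nonneg (by linarith)]
        linarith
    exact this.continuous
  obtain ⟨E, hE⟩ : ∃ E : ℝ → ℝ, ∀ t, E t = G t - M t := ⟨_, fun _ => rfl⟩
  have hEf : E = fun t => G t - M t := funext hE
  have hEc : Continuous E := by rw [hEf]; exact hGc.sub hMc
  have hEn : ∀ t, 0 ≤ E t := by
    intro t; rw [hE]; linarith [hMle t t le_rfl]
  have hEp : Function.Periodic E (2 * Real.pi) := by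
    intro t; rw [hE, hE, hGs, hMs]; ring
  obtain ⟨I, hI⟩ : ∃ I : ℝ, I = ∫ t in (0:ℝ)..(2 * Real.pi), E t := ⟨_, rfl⟩
  have hmean : Real.pi ≤ 2 * Real.pi * κ + I := by
    rw [hI]
    apply mean_bound hMc hEc hEn _ hManti hMs hcos
    intro t; rw [hE, hG]; ring
  have hIpos : 0 < I := by nlinarith
  -- l = kappa / E0 with E0 = I / (2 pi)
  obtain ⟨l, hl⟩ : ∃ l : ℝ, l = 2 * Real.pi * κ / I := ⟨_, rfl⟩
  have hlI : l * I = 2 * Real.pi * κ := by rw [hl]; field_simp
  have hl0 : 0 < l := by rw [hl]; positivity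
  have hl1 : l ≤ 1 / 2 := by
    rw [hl, div_le_iff₀ hIpos]
    nlinarith
  obtain ⟨S, hS⟩ : ∃ S : ℝ → ℝ, ∀ t, S t = ∫ x in (0:ℝ)..t, E x := ⟨_, fun _ => rfl⟩
  have hSd : ∀ t, HasDerivAt S (E t) t := by
    intro t
    have h1 : S = fun t => ∫ x in (0:ℝ)..t, E x := funext hS
    rw [h1]
    exact intervalIntegral.integral_hasDerivAt_right (hEc.intervalIntegrable _ _)
      (hEc.stronglyMeasurableAtFilter _ _) hEc.continuousAt
  have hSc : Continuous S := continuous_iff_continuousAt.mpr fun t => (hSd t).continuousAt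
  have hint : ∀ t, ∫ x in t..(t + 2 * Real.pi), E x = I := by
    intro t
    rw [hI]
    have := hEp.intervalIntegral_add_eq t 0
    simpa using this
  have hSs : ∀ t, S (t + 2 * Real.pi) = S t + I := by
    intro t
    rw [hS, hS, ← hint t]
    exact (intervalIntegral.integral_add_adjacent_intervals (hEc.intervalIntegrable _ _)
      (hEc.intervalIntegrable _ _)).symm
  obtain ⟨K, hKd⟩ : ∃ K : ℝ → ℝ, ∀ t, K t = M t + l * S t := ⟨_, fun _ => rfl⟩
  have hKf : K = fun t => M t + l * S t := funext hKd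
  have hKc : Continuous K := by rw [hKf]; exact hMc.add (continuous_const.mul hSc)
  have hKp : Function.Periodic K (2 * Real.pi) := by
    intro t; rw [hKd, hKd, hMs, hSs]; linarith
  obtain ⟨t0, ht0⟩ : ∃ t0, ∀ t, K t0 ≤ K t := by
    obtain ⟨x, -, hx⟩ := (isCompact_Icc (a := (0:ℝ)) (b := 2 * Real.pi)).exists_isMinOn
      ⟨0, le_rfl, h2pi.le⟩ hKc.continuousOn
    refine ⟨x, fun t => ?_⟩
    obtain ⟨y, hy, hty⟩ := hKp.exists_mem_Ico₀ h2pi t
    rw [hty]
    exact hx ⟨hy.1, hy.2.le⟩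
  -- E t0 = 0
  have hE0 : E t0 = 0 := by
    by_contra hne
    have hpos : 0 < E t0 := lt_of_le_of_ne (hEn t0) (Ne.symm hne)
    have h1 : runInf G t0 < G t0 := by
      rw [hE, hM] at hpos; linarith
    obtain ⟨δ, hδ, hconst⟩ := runInf_const_left hbdd hGc h1
    have h2 := ht0 (t0 - δ)
    rw [hKd, hKd, hM, hconst (t0 - δ) ⟨le_rfl, by linarith⟩] at h2
    have h3 : S (t0 - δ) < S t0 := by
      have h4 : S t0 - S (t0 - δ) = ∫ x in (t0 - δ)..t0, E x := by
        rw [hS, hS]
        exact intervalIntegral.integral_interval_sub_left (hEc.intervalIntegrable _ _)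
          (hEc.intervalIntegrable _ _)
      have h5 : 0 < ∫ x in (t0 - δ)..t0, E x := by
        apply intervalIntegral.integral_pos (by linarith) hEc.continuousOn
          (fun x _ => hEn x) ⟨t0, ⟨by linarith, le_rfl⟩, hpos⟩
      linarith
    nlinarith
  have hGM : G t0 = M t0 := by
    rw [hE] at hE0; linarith
  -- V t0 = kappa
  have hVle : V t0 - κ ≤ 0 := by
    by_contra hcon
    rw [not_le] at hcon
    -- G increasing at t0: points to the left are smaller
    have h1 := (hGd t0).hasDerivWithinAt (s := Iio t0)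
    rw [hasDerivWithinAt_iff_tendsto_slope' (by simp)] at h1
    have h2 := h1.eventually (lt_mem_nhds hcon)
    obtain ⟨s, hs, hs2⟩ := (h2.and self_mem_nhdsWithin).exists
    rw [slope_def_field] at hs
    have h3 : s < t0 := hs2
    have h4 := hMle s t0 h3.le
    rw [← hGM] at h4
    have h5 : (G s - G t0) / (s - t0) ≤ 0 := div_nonpos_of_nonneg_of_nonpos (by linarith) (by linarith)
    linarith
  have hVge : 0 ≤ V t0 - κ := by
    by_contra hcon
    rw [not_le] at hcon
    have hd : HasDerivAt (fun t => G t + l * S t) (V t0 - κ + l * E t0) t0 :=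
      (hGd t0).add ((hSd t0).const_mul l)
    rw [hE0, mul_zero, add_zero] at hd
    have h1 := hd.hasDerivWithinAt (s := Ioi t0)
    rw [hasDerivWithinAt_iff_tendsto_slope' (by simp)] at h1
    have h2 := h1.eventually (gt_mem_nhds hcon)
    obtain ⟨s, hs, hs2⟩ := (h2.and self_mem_nhdsWithin).exists
    rw [slope_def_field] at hs
    have h3 : t0 < s := hs2
    have h4 : G s + l * S s - (G t0 + l * S t0) < 0 := by
      by_contra hc
      rw [not_lt] at hc
      have := div_nonneg hc (by linarith : 0 ≤ s - t0)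
      linarith
    have h5 := ht0 s
    rw [hKd, hKd, ← hGM] at h5
    have h6 := hMle s s le_rfl
    linarith
  have hV0 : V t0 = κ := by linarith
  refine ⟨t0, hV0, fun τ hτ => ?_⟩
  have hGS : ∀ t, G t + l * S t = K t + E t := by
    intro t; rw [hKd, hE]; ring
  have hest := estimate hK (G := G) (V := V) (E := E) (K := K) (κ := κ) (l := l) (a := t0)
    (τ := τ) (K0 := K t0) (S := S) hGd hSd hVc hEc hEn hGS ht0 (by rw [hE0, add_zero])
    (by rw [hKp t0, hEp t0, hE0, add_zero]) hl0.le hl1 hτ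
  rw [hint] at hest
  -- remove the sine
  have hNcont : ContinuousOn (fun t => Nf ((t - τ) / 2)) (Icc t0 (t0 + 2 * Real.pi)) := by
    have h1 : ContinuousOn (fun t : ℝ => (t - τ) / 2) (Icc t0 (t0 + 2 * Real.pi)) := by fun_prop
    refine hK.1.comp h1 ?_
    intro t ht
    exact ⟨by linarith [ht.1, hτ.2], by linarith [ht.2, hτ.1]⟩
  have i1 : IntervalIntegrable (fun t => Nf ((t - τ) / 2) * (V t - κ)) volume t0
      (t0 + 2 * Real.pi) := by
    apply ContinuousOn.intervalIntegrable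
    rw [uIcc_of_le (by linarith)]
    exact hNcont.mul (hVc.sub continuous_const).continuousOn
  have i2 : IntervalIntegrable (fun t => 1 / 6 * (V t * Real.sin t)) volume t0
      (t0 + 2 * Real.pi) :=
    (continuous_const.mul (hVc.mul Real.continuous_sin)).intervalIntegrable _ _
  have i3 : IntervalIntegrable (fun t => 1 / 6 * (κ * Real.sin t)) volume t0
      (t0 + 2 * Real.pi) :=
    (continuous_const.mul (continuous_const.mul Real.continuous_sin)).intervalIntegrable _ _
  have e1 : ∫ t in t0..(t0 + 2 * Real.pi), (Nf ((t - τ) / 2) - 1 / 6 * Real.sin t) * (V t - κ) =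
      (∫ t in t0..(t0 + 2 * Real.pi), Nf ((t - τ) / 2) * (V t - κ)) -
        (∫ t in t0..(t0 + 2 * Real.pi), 1 / 6 * (V t * Real.sin t)) +
        ∫ t in t0..(t0 + 2 * Real.pi), 1 / 6 * (κ * Real.sin t) := by
    rw [← intervalIntegral.integral_sub i1 i2, ← intervalIntegral.integral_add (i1.sub i2) i3]
    apply intervalIntegral.integral_congr
    intro t _
    simp only
    ring
  have e2 : ∫ t in t0..(t0 + 2 * Real.pi), 1 / 6 * (V t * Real.sin t) = -(Real.pi / 6) := by
    rw [intervalIntegral.integral_const_mul]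
    have hp : Function.Periodic (fun t => V t * Real.sin t) (2 * Real.pi) := by
      intro t
      simp only [Real.sin_add_two_pi]
      rw [hVp t]
    have h1 := hp.intervalIntegral_add_eq t0 0
    simp only [zero_add] at h1
    rw [h1, hnorm]; ring
  have e3 : ∫ t in t0..(t0 + 2 * Real.pi), 1 / 6 * (κ * Real.sin t) = 0 := by
    rw [intervalIntegral.integral_const_mul, intervalIntegral.integral_const_mul, integral_sin,
      Real.cos_add_two_pi]
    ring
  rw [e1, e2, e3] at hest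
  -- numbers
  have h12 : 0 < 1 - 2 * κ := by linarith
  have hfin : 7 / 12 * l ^ 2 * I ≤ Real.pi * (7 / 3 * κ ^ 2 / (1 - 2 * κ)) := by
    have h1 : l ^ 2 * I = 2 * Real.pi * κ * l := by
      rw [← hlI]; ring
    have h2 : l ≤ 2 * κ / (1 - 2 * κ) := by
      rw [hl, div_le_div_iff₀ hIpos h12]
      have : Real.pi * (1 - 2 * κ) ≤ I := by linarith
      nlinarith
    have h3 : 2 * Real.pi * κ * l ≤ 2 * Real.pi * κ * (2 * κ / (1 - 2 * κ)) :=
      mul_le_mul_of_nonneg_left h2 (by positivity)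
    calc 7 / 12 * l ^ 2 * I = 7 / 12 * (2 * Real.pi * κ * l) := by rw [mul_assoc, h1]
      _ ≤ 7 / 12 * (2 * Real.pi * κ * (2 * κ / (1 - 2 * κ))) := by linarith
      _ = Real.pi * (7 / 3 * κ ^ 2 / (1 - 2 * κ)) := by ring
  linarith

end

end Pool.Agent.Lib.MP_7682a8_an.OM.H86
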